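import Pool.Agent.H453.K2.Shape
import Pool.Agent.H453.EN.Cont

/-! Continuation of the `L`-series of twists by characters. -/

set_option autoImplicit false

namespace Pool.Agent.H453.K2

open NumberField IsDedekindDomain Complex Polynomial Filter
open Pool.Agent.H341R2.EC
open Pool.Agent.R433.MD
open Pool.Agent.R333.BR (lf_one)
open Pool.Agent.N19.BR (lf_ne_zero_one)
open Pool.Agent.H453.EN

section
variable {k : Type} [Field k] [NumberField k]

/-- for some `N` the incomplete `L`-series of the twist has a continuation to `U` -/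
def ContC (P : (ℂ → ℂ) → Prop) (E : WeierstrassCurve k) (Z : Ext k) (M : Ext Z.F)
    (χ : Gal(M.F/Z.F) →* ℂˣ) : Prop :=
  ∃ N : ℕ, N ≠ 0 ∧ ∃ Λ : ℂ → ℂ, P Λ ∧
    ∀ W : HeightOneSpectrum (𝓞 Z.F) → WeierstrassCurve (𝓞 Z.F),
      (∀ v, IsMinAt (E.map (algebraMap k Z.F)) v (W v)) →
      ∀ s : ℂ, 3 / 2 < s.re → Λ s = LC N W (cf χ) s

/-- **Continuation of incomplete `L`-series.** -/
theorem cont_incomplete {n : ℕ} {K : Ext k} (h : FacC n K) (E : WeierstrassCurve k)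
    (hE : E.IsElliptic) {P : (ℂ → ℂ) → Prop}
    (hP1 : ∀ (ι : Type) (T : Finset ι) (f : ι → ℂ → ℂ), (∀ i, P (f i)) →
      P fun s => ∏ i ∈ T, f i s)
    (hP2 : ∀ f g : ℂ → ℂ, P f → Differentiable ℂ g → P fun s => f s * g s)
    (hc : ∀ Z : Ext k, Module.finrank k Z.F < n → ∀ (M : Ext Z.F), IsGalois Z.F M.F →
      ∀ χ : Gal(M.F/Z.F) →* ℂˣ, (∃ p : ℕ, p.Prime ∧ p ∣ Module.finrank k K.F ∧ χ ^ p = 1) → ContC P E Z M χ) :
    ∃ N : ℕ, N ≠ 0 ∧ ∃ Λ : ℂ → ℂ, P Λ ∧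
      ∀ V : HeightOneSpectrum (𝓞 K.F) → WeierstrassCurve (𝓞 K.F),
        (∀ v, IsMinAt (E.map (algebraMap k K.F)) v (V v)) →
        ∀ s : ℂ, 3 / 2 < s.re → Λ s = LN N V s := by
  classical
  obtain ⟨ι, hι, Z, M, hM, χ, ⟨p, hp, hpd, hχ⟩, hZ, -, hL⟩ := h
  have hEK : (E.map (algebraMap k K.F)).IsElliptic := inferInstance
  have hEZ : ∀ i, (E.map (algebraMap k (Z i).F)).IsElliptic := fun i => inferInstance
  obtain ⟨V, hV⟩ := exists_minimal (E.map (algebraMap k K.F)) hEK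
  choose W hW using fun i => exists_minimal _ (hEZ i)
  choose Ni hNi Λ hΛ hΛL using fun i => hc (Z i) (hZ i) (M i) (hM i) (χ i) ⟨p, hp, hpd, hχ i⟩
  obtain ⟨N0, hN0, hrel⟩ := hL E hE V hV W hW
  set N := N0 * ∏ i, Ni i with hN
  have hN' : N ≠ 0 := mul_ne_zero hN0 (Finset.prod_ne_zero_iff.2 fun i _ => hNi i)
  have hdvd : ∀ i, Ni i ∣ N := fun i =>
    (Finset.dvd_prod_of_mem Ni (Finset.mem_univ i)).trans (dvd_mul_left _ _)
  refine ⟨N, hN', fun s => ∏ i, (Λ i s * ∏ v ∈ (finite_dv (K := (Z i).F) hN').toFinset.filter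
    (fun v => ¬ Dv (Ni i) v), tlf (W i) (cf (χ i)) s v), ?_, fun V' hV' s hs => ?_⟩
  · refine hP1 ι Finset.univ (fun i s => Λ i s *
      ∏ v ∈ (finite_dv (K := (Z i).F) hN').toFinset.filter
        (fun v => ¬ Dv (Ni i) v), tlf (W i) (cf (χ i)) s v) fun i => hP2 _ _ (hΛ i) ?_
    intro s
    exact (Finset.analyticAt_fun_prod _ fun v _ =>
      analytic_tlf (W i) (cf (χ i)) v s).differentiableAt
  · rw [LN_minimal hEK hV' hV, hrel N hN' (dvd_mul_right _ _) s hs]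
    refine Finset.prod_congr rfl fun i _ => ?_
    rw [hΛL i (W i) (hW i) s hs, LC_dvd (hEZ i) (hW i) (cf_le _) hN' (hdvd i) hs]

/-- continuation of the complete `L`-series -/
theorem cont_complete {n : ℕ} {K : Ext k} (h : FacC n K) (E : WeierstrassCurve k)
    (hE : E.IsElliptic) {U : Set ℂ} (hU : ∀ s ∈ U, 1 < s.re ∨ s = 1)
    (hc : ∀ Z : Ext k, Module.finrank k Z.F < n → ∀ (M : Ext Z.F), IsGalois Z.F M.F →
      ∀ χ : Gal(M.F/Z.F) →* ℂˣ, (∃ p : ℕ, p.Prime ∧ p ∣ Module.finrank k K.F ∧ χ ^ p = 1) →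
        ContC (fun Λ => AnalyticOnNhd ℂ Λ U) E Z M χ) :
    ∃ Λ : ℂ → ℂ, AnalyticOnNhd ℂ Λ U ∧
      ∀ V : HeightOneSpectrum (𝓞 K.F) → WeierstrassCurve (𝓞 K.F),
        (∀ v, IsMinAt (E.map (algebraMap k K.F)) v (V v)) →
        ∀ s : ℂ, 3 / 2 < s.re → Λ s = LL V s := by
  classical
  obtain ⟨N, hN, Λ, hΛ, hΛL⟩ := cont_incomplete h E hE
    (P := fun Λ => AnalyticOnNhd ℂ Λ U)
    (fun ι T f hf s hs => Finset.analyticAt_fun_prod _ fun i _ => hf i s hs)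
    (fun f g hf hg s hs => (hf s hs).fun_mul (hg.analyticAt s)) hc
  have hEK : (E.map (algebraMap k K.F)).IsElliptic := inferInstance
  obtain ⟨V, hV⟩ := exists_minimal (E.map (algebraMap k K.F)) hEK
  have hne : ∀ s : ℂ, (1 < s.re ∨ s = 1) → ∀ v, lf V s v ≠ 0 := by
    rintro s (hs | rfl) v
    · exact lf_ne_zero_one V hs v
    · exact lf_one V v
  refine ⟨fun s => Λ s / ∏ v ∈ (finite_dv (K := K.F) hN).toFinset, lf V s v, fun s hs => ?_,
    fun V' hV' s hs => ?_⟩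
  · exact AnalyticAt.fun_div (hΛ s hs)
      (Finset.analyticAt_fun_prod _ fun v _ => analytic_lf V v s)
      (Finset.prod_ne_zero_iff.2 fun v _ => hne s (hU s hs) v)
  · have h2 : LL V' s = LL V s := Pool.Agent.N19.BR.LL_minimal hEK hV' hV s
    have h3 : ∏ v ∈ (finite_dv (K := K.F) hN).toFinset, lf V s v ≠ 0 :=
      Finset.prod_ne_zero_iff.2 fun v _ => lf_ne_zero_one V (by linarith) v
    change Λ s / ∏ v ∈ (finite_dv (K := K.F) hN).toFinset, lf V s v = LL V' s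
    rw [div_eq_iff h3, h2, hΛL V hV s hs, LN_eq hEK hV hN hs]

end

end Pool.Agent.H453.K2
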