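import Pool.Agent.H453.K2.Id
import Pool.Agent.H453.EN.Fac

/-! Fields over which the incomplete `L`-series of all elliptic curves are products of those of twists by
characters over fields of smaller degree. -/

set_option autoImplicit false

namespace Pool.Agent.H453.K2

open NumberField IsDedekindDomain Complex Polynomial Filter
open Pool.Agent.H341R2.EC
open Pool.Agent.R433.MD
open Pool.Agent.H453.EN
open Pool.Agent.Q92.RT (induced)
open Pool.Agent.Q92.AR (fixer frob Unramified fixer_fixedField ramified_finite mem_fixer)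

theorem norm_hom {G : Type} [Group G] [Finite G] (ψ : G →* ℂˣ) (y : G) :
    ‖((ψ y : ℂˣ) : ℂ)‖ = 1 := by
  have h : ((ψ y : ℂˣ) : ℂ) ^ Nat.card G = 1 := by
    rw [← Units.val_pow_eq_pow_val, ← map_pow, pow_card_eq_one', map_one, Units.val_one]
  exact Complex.norm_eq_one_of_pow_eq_one h Nat.card_pos.ne'

section
variable {k : Type} [Field k] [NumberField k]

/-- the values of a character at the Frobenius elements -/
noncomputable def cf {Z M : Type} [Field Z] [NumberField Z] [Field M] [NumberField M] [Algebra Z M]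
    (χ : Gal(M/Z) →* ℂˣ) (w : HeightOneSpectrum (𝓞 Z)) : ℂ := ((χ (frob M w) : ℂˣ) : ℂ)

theorem cf_le {Z M : Type} [Field Z] [NumberField Z] [Field M] [NumberField M] [Algebra Z M]
    (χ : Gal(M/Z) →* ℂˣ) (w : HeightOneSpectrum (𝓞 Z)) : ‖cf χ w‖ ≤ 1 :=
  (norm_hom χ _).le

/-- The incomplete `L`-series of `E / K` is a product of incomplete `L`-series of twists of `E` by
characters over extensions of `k` of degree less than `n`, for all `E / k`. -/
def FacC (n : ℕ) (K : Ext k) : Prop :=
  ∃ (ι : Type) (_ : Fintype ι) (Z : ι → Ext k) (M : ∀ i, Ext (Z i).F)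
    (_ : ∀ i, IsGalois (Z i).F (M i).F) (χ : ∀ i, Gal((M i).F/(Z i).F) →* ℂˣ),
    (∃ p : ℕ, p.Prime ∧ p ∣ Module.finrank k K.F ∧ ∀ i, χ i ^ p = 1) ∧
    (∀ i, Module.finrank k (Z i).F < n) ∧
    ∑ i, Module.finrank k (Z i).F = Module.finrank k K.F ∧
    ∀ E : WeierstrassCurve k, E.IsElliptic →
      ∀ V : HeightOneSpectrum (𝓞 K.F) → WeierstrassCurve (𝓞 K.F),
        (∀ v, IsMinAt (E.map (algebraMap k K.F)) v (V v)) →
      ∀ W : ∀ i, HeightOneSpectrum (𝓞 (Z i).F) → WeierstrassCurve (𝓞 (Z i).F),
        (∀ i v, IsMinAt (E.map (algebraMap k (Z i).F)) v (W i v)) →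
        ∃ N0 : ℕ, N0 ≠ 0 ∧ ∀ N : ℕ, N ≠ 0 → N0 ∣ N → ∀ s : ℂ, 3 / 2 < s.re →
          LN N V s = ∏ i, LC N (W i) (cf (χ i)) s

theorem facC_restrict {m n : ℕ} (Z₀ : Ext k) (K : Ext Z₀.F) (h : FacC m K)
    (hmn : Module.finrank k Z₀.F * m ≤ n) : FacC n (Z₀.restrict K) := by
  obtain ⟨ι, hι, Z, M, hM, χ, ⟨p, hp, hpd, hχ⟩, hZ, hdeg, hL⟩ := h
  refine ⟨ι, hι, fun i => Z₀.restrict (Z i), fun i => M i, fun i => hM i, fun i => χ i,
    ⟨p, hp, ?_, hχ⟩, fun i => ?_, ?_, fun E hE V hV W hW => ?_⟩
  · rw [finrank_restrict]
    exact hpd.trans (dvd_mul_left _ _)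
  · rw [finrank_restrict]
    refine lt_of_lt_of_le ?_ hmn
    have : 0 < Module.finrank k Z₀.F := Module.finrank_pos
    exact Nat.mul_lt_mul_of_pos_left (hZ i) this
  · simp only [finrank_restrict]
    rw [← Finset.mul_sum, hdeg]
  · have hEZ : (E.map (algebraMap k Z₀.F)).IsElliptic := inferInstance
    refine hL (E.map (algebraMap k Z₀.F)) hEZ V (fun v => ?_) W (fun i v => ?_)
    · have h1 := hV v
      rw [map_restrict] at h1
      exact h1
    · have h1 := hW i v
      rw [map_restrict] at h1
      exact h1

end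

section
variable {k : Type} [Field k] [NumberField k] {K : Type} [Field K] [NumberField K] [Algebra k K]
  {M : Type} [Field M] [NumberField M] [Algebra k M] [Algebra K M] [IsScalarTower k K M]
  [IsGalois k M] [IsGalois K M]

/-- **The incomplete `L`-series of characters whose sum is a permutation character.** -/
theorem facC_of_dec {n : ℕ} {J : Type} [Fintype J] (S : J → Subgroup Gal(M/k))
    (lam : ∀ j, S j →* ℂˣ) (hS : ∀ j, (S j).index < n) {p : ℕ} (hp : p.Prime)
    (hpd : p ∣ Module.finrank k K) (hlam : ∀ j, lam j ^ p = 1) (hsum : ∑ j, (S j).index = Module.finrank k K)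
    (hdec : ∀ g, induced (fixer k K M) 1 g = ∑ j, induced (S j) (lam j) g) :
    FacC n (⟨K⟩ : Ext k) := by
  classical
  have hidx : ∀ U : Subgroup Gal(M/k), Module.finrank k (IntermediateField.fixedField U) =
      U.index := by
    intro U
    rw [IntermediateField.finrank_eq_fixingSubgroup_index,
      IntermediateField.fixingSubgroup_fixedField]
  have hfix : ∀ U : Subgroup Gal(M/k), fixer k (IntermediateField.fixedField U) M = U :=
    fun U => fixer_fixedField U
  have hgal : ∀ U : Subgroup Gal(M/k), IsGalois (IntermediateField.fixedField U) M :=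
    fun U => inferInstance
  let ψ : ∀ j, fixer k (IntermediateField.fixedField (S j)) M →* ℂˣ := fun j =>
    (lam j).comp (Subgroup.inclusion (le_of_eq (hfix (S j))))
  have hψ : ∀ (j : J) (g : Gal(M/k)),
      induced (fixer k (IntermediateField.fixedField (S j)) M) (ψ j) g = induced (S j) (lam j) g := by
    intro j g
    have h1 : ∀ (U U' : Subgroup Gal(M/k)) (h : U' = U) (l : U →* ℂˣ),
        induced U' (l.comp (Subgroup.inclusion (le_of_eq h))) g = induced U l g := by
      rintro U _ rfl l
      rfl
    exact h1 _ _ (hfix (S j)) (lam j)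
  refine ⟨J, inferInstance, fun j => ⟨IntermediateField.fixedField (S j)⟩, fun j => ⟨M⟩,
    fun j => hgal (S j), fun j => (ψ j).comp (resH k (IntermediateField.fixedField (S j)) M),
    ⟨p, hp, hpd, fun j => ?_⟩, fun j => ?_, ?_, fun E hE V hV W hW => ?_⟩
  · refine MonoidHom.ext fun y => ?_
    change (lam j _) ^ p = 1
    exact DFunLike.congr_fun (hlam j) _
  · change Module.finrank k (IntermediateField.fixedField (S j)) < n
    rw [hidx]
    exact hS j
  · change ∑ j, Module.finrank k (IntermediateField.fixedField (S j)) = Module.finrank k K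
    simp only [hidx]
    exact hsum
  · let ZZ : Option J → Ext k := fun o => match o with
      | none => ⟨K⟩
      | some j => ⟨IntermediateField.fixedField (S j)⟩
    let cc : ∀ o : Option J, HeightOneSpectrum (𝓞 (ZZ o).F) → ℂ := fun o => match o with
      | none => fun _ => 1
      | some j => cf (Z := IntermediateField.fixedField (S j)) (M := M)
        ((ψ j).comp (resH k (IntermediateField.fixedField (S j)) M))
    let VV : ∀ o : Option J, HeightOneSpectrum (𝓞 (ZZ o).F) → WeierstrassCurve (𝓞 (ZZ o).F) :=
      fun o => match o with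
      | none => V
      | some j => W j
    have hVV : ∀ o w, IsMinAt (E.map (algebraMap k (ZZ o).F)) w (VV o w) := by
      rintro (_ | j) w
      · exact hV w
      · exact hW j w
    have hcc : ∀ o w, ‖cc o w‖ ≤ 1 := by
      rintro (_ | j) w
      · change ‖(1 : ℂ)‖ ≤ 1
        rw [norm_one]
      · exact cf_le _ w
    obtain ⟨N0, hN0, h⟩ := relC (F := k) (fun o => (ZZ o).F)
      (fun o => match o with | none => 1 | some _ => 0)
      (fun o => match o with | none => 0 | some _ => 1) cc hcc
      (S := {v | ¬ Unramified M v}) (ramified_finite (K := k) (M := M)) (by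
        intro v hv n hn
        have hv' : Unramified M v := not_not.1 hv
        have h0 : psum (fun w : Fib K v => fdeg w) (fun w => (1 : ℂ)) n =
            induced (fixer k K M) 1 (frob M v ^ n) :=
          psum_above (F := k) (Z := K) (M := M) 1 hv' n
        have hj : ∀ j : J, psum (fun w : Fib (IntermediateField.fixedField (S j)) v => fdeg w)
            (fun w => cf ((ψ j).comp (resH k (IntermediateField.fixedField (S j)) M)) w.1) n =
            induced (S j) (lam j) (frob M v ^ n) := fun j => by
          rw [← hψ j]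
          exact psum_above (F := k) (Z := IntermediateField.fixedField (S j)) (M := M) (ψ j) hv' n
        have h2 := hdec (frob M v ^ n)
        rw [Fintype.sum_option, Fintype.sum_option]
        simp only [Nat.cast_one, Nat.cast_zero, one_mul, zero_mul, Finset.sum_const_zero,
          zero_add, add_zero]
        refine Eq.trans h0 (h2.trans (Finset.sum_congr rfl fun j _ => (hj j).symm))) E hE VV hVV
    refine ⟨N0, hN0, fun N hN hNN s hs => ?_⟩
    have h3 := h N hN hNN s hs
    rw [Fintype.prod_option, Fintype.prod_option] at h3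
    simp only [pow_one, pow_zero, one_mul, mul_one, Finset.prod_const_one] at h3
    refine Eq.trans ?_ h3
    exact (LC_one N V s).symm

end

end Pool.Agent.H453.K2
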