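import Pool.Agent.H453.MC.Grp
import Pool.Graph.R_pool_sql_team_seeded_3997aac3.Q92.RT.Ind

/-! Permutation characters of groups with an elementary abelian normal subgroup as sums of monomial
characters of smaller degree. -/

set_option autoImplicit false
set_option linter.unusedSectionVars false

namespace Pool.Agent.H453.K2

open Pool.Agent.Q92.RT (induced)
open Pool.Agent.H453.MC (exists_affine dual_count)
open Module

/-! ### Sums over orbits -/

section orbits
variable {G Y : Type} [Group G] [Finite G] [Finite Y] [MulAction G Y]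

/-- the value at `g` of the character at `y`, if `g` fixes `y` -/
noncomputable def val (lam : ∀ y : Y, MulAction.stabilizer G y →* ℂˣ) (g : G) (y : Y) : ℂ :=
  open Classical in
  if h : g • y = y then ((lam y ⟨g, h⟩ : ℂˣ) : ℂ) else 0

theorem sum_orbit (y : Y) (F : Y → ℂ) [Fintype G] [Fintype (MulAction.orbit G y)] :
    ∑ x : G, F (x • y) = (Nat.card (MulAction.stabilizer G y) : ℂ) *
      ∑ z : MulAction.orbit G y, F z := by
  classical
  have h1 : ∑ x : G, F (x • y) = ∑ z : MulAction.orbit G y,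
      ∑ x ∈ Finset.univ.filter (fun x : G => (⟨x • y, MulAction.mem_orbit y x⟩ :
        MulAction.orbit G y) = z), F (x • y) := by
    rw [Finset.sum_fiberwise]
  rw [h1, Finset.mul_sum]
  refine Finset.sum_congr rfl fun z _ => ?_
  obtain ⟨a, ha⟩ : ∃ a : G, a • y = (z : Y) := z.2
  have h0 : ∀ x : G, (⟨x • y, MulAction.mem_orbit y x⟩ : MulAction.orbit G y) = z ↔
      x • y = a • y := by
    intro x
    rw [ha]
    exact Subtype.ext_iff
  have h2 : ∀ x ∈ Finset.univ.filter (fun x : G => (⟨x • y, MulAction.mem_orbit y x⟩ :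
        MulAction.orbit G y) = z), F (x • y) = F z := by
    intro x hx
    have h3 := (h0 x).1 (Finset.mem_filter.1 hx).2
    rw [h3, ha]
  rw [Finset.sum_congr rfl h2, Finset.sum_const, nsmul_eq_mul]
  congr 1
  rw [← Fintype.card_subtype, ← Nat.card_eq_fintype_card]
  congr 1
  refine Nat.card_congr
    { toFun := fun x => ⟨a⁻¹ * x.1, ?_⟩
      invFun := fun s => ⟨a * s.1, ?_⟩
      left_inv := fun x => Subtype.ext (by simp)
      right_inv := fun s => Subtype.ext (by simp) }
  · rw [MulAction.mem_stabilizer_iff, mul_smul, (h0 x.1).1 x.2, inv_smul_smul]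
  · refine (h0 _).2 ?_
    have h4 : s.1 • y = y := s.2
    rw [mul_smul, h4]

/-- **The sum over the fixed points is a sum of induced characters.** -/
theorem sum_fixed (lam : ∀ y : Y, MulAction.stabilizer G y →* ℂˣ)
    (hc : ∀ (g : G) (y : Y) (s : G) (hs : s • y = y) (hs' : (g * s * g⁻¹) • (g • y) = g • y),
      lam (g • y) ⟨g * s * g⁻¹, hs'⟩ = lam y ⟨s, hs⟩) [Fintype Y]
    [Fintype (MulAction.orbitRel.Quotient G Y)] (g : G) :
    ∑ y : Y, val lam g y = ∑ o : MulAction.orbitRel.Quotient G Y,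
      induced (MulAction.stabilizer G (Quotient.out o)) (lam (Quotient.out o)) g := by
  classical
  have _ : Fintype G := Fintype.ofFinite G
  have h1 : ∀ y : Y, induced (MulAction.stabilizer G y) (lam y) g =
      ∑ z : MulAction.orbit G y, val lam g z := by
    intro y
    unfold induced
    rw [finsum_eq_sum_of_fintype]
    have h2 : ∀ x : G, (if h : x⁻¹ * g * x ∈ MulAction.stabilizer G y then
        ((lam y ⟨x⁻¹ * g * x, h⟩ : ℂˣ) : ℂ) else 0) = val lam g (x • y) := by
      intro x
      unfold val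
      have e : x⁻¹ * g * x ∈ MulAction.stabilizer G y ↔ g • x • y = x • y := by
        rw [MulAction.mem_stabilizer_iff, mul_smul, mul_smul, inv_smul_eq_iff]
      by_cases h : g • x • y = x • y
      · rw [dif_pos h, dif_pos (e.2 h)]
        have h3 : (x * (x⁻¹ * g * x) * x⁻¹) • (x • y) = x • y := by
          have : x * (x⁻¹ * g * x) * x⁻¹ = g := by group
          rw [this, h]
        have h4 := hc x y (x⁻¹ * g * x) (e.2 h) h3
        have h5 : (⟨x * (x⁻¹ * g * x) * x⁻¹, h3⟩ : MulAction.stabilizer G (x • y)) = ⟨g, h⟩ :=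
          Subtype.ext (by group)
        rw [h5] at h4
        rw [h4]
      · rw [dif_neg h, dif_neg (fun h' => h (e.1 h'))]
    have h3 : (∑ x : G, if h : x⁻¹ * g * x ∈ MulAction.stabilizer G y then
        ((lam y ⟨x⁻¹ * g * x, h⟩ : ℂˣ) : ℂ) else 0) = ∑ x : G, val lam g (x • y) :=
      Finset.sum_congr rfl fun x _ => h2 x
    rw [sum_orbit y (val lam g)] at h3
    have h4 : (Nat.card (MulAction.stabilizer G y) : ℂ) ≠ 0 := by
      exact_mod_cast Nat.card_pos.ne'
    rw [inv_mul_eq_iff_eq_mul₀ h4, ← h3]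
    exact Finset.sum_congr rfl fun x _ => by congr
  have h6 := Fintype.sum_equiv (MulAction.selfEquivSigmaOrbits G Y) (fun y => val lam g y)
    (fun z => val lam g (z.2 : Y)) (fun y => rfl)
  rw [h6, Fintype.sum_sigma]
  refine Finset.sum_congr rfl fun o _ => ?_
  rw [h1]

end orbits

/-! ### Fixed points of affine maps and characters -/

section
variable {p : ℕ} [Fact p.Prime] {V : Type} [AddCommGroup V] [Module (ZMod p) V] [Finite V]

/-- the subspace of the fixed functionals -/
def fixD (L : V ≃ₗ[ZMod p] V) : Submodule (ZMod p) (Dual (ZMod p) V) where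
  carrier := {f | f ∘ₗ (L : V →ₗ[ZMod p] V) = f}
  add_mem' := fun {a b} ha hb => by
    change (a + b) ∘ₗ (L : V →ₗ[ZMod p] V) = a + b
    rw [LinearMap.add_comp, ha, hb]
  zero_mem' := LinearMap.zero_comp _
  smul_mem' := fun c a ha => by
    change (c • a) ∘ₗ (L : V →ₗ[ZMod p] V) = c • a
    rw [LinearMap.smul_comp, ha]

omit [Finite V] in
theorem char_sum_zero (W : Submodule (ZMod p) (Dual (ZMod p) V)) [Fintype W] (t : V)
    {f₀ : Dual (ZMod p) V} (h₀ : f₀ ∈ W) (ht : f₀ t ≠ 0) :
    ∑ f : W, ZMod.stdAddChar (N := p) (f.1 t) = 0 := by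
  have h1 : ∑ f : W, ZMod.stdAddChar (N := p) (f.1 t) =
      ∑ f : W, ZMod.stdAddChar (N := p) ((f + (f₀ t)⁻¹ • (⟨f₀, h₀⟩ : W)).1 t) :=
    (Fintype.sum_equiv (Equiv.addRight ((f₀ t)⁻¹ • (⟨f₀, h₀⟩ : W))) _ _ fun f => rfl).symm
  have h2 : ∀ f : W, ZMod.stdAddChar (N := p) ((f + (f₀ t)⁻¹ • (⟨f₀, h₀⟩ : W)).1 t) =
      ZMod.stdAddChar (N := p) (f.1 t) * ZMod.stdAddChar (N := p) 1 := by
    intro f
    rw [← AddChar.map_add_eq_mul]
    congr 1
    change f.1 t + (f₀ t)⁻¹ * f₀ t = f.1 t + 1
    rw [inv_mul_cancel₀ ht]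
  rw [Finset.sum_congr rfl fun f _ => h2 f, ← Finset.sum_mul] at h1
  by_contra h3
  have h4 := (mul_eq_left₀ h3).1 h1.symm
  rw [← AddChar.map_zero_eq_one (ZMod.stdAddChar (N := p))] at h4
  exact one_ne_zero (ZMod.injective_stdAddChar h4)

/-- the number of the fixed points of an affine map as a character sum over the fixed linear
functionals -/
theorem affine_sum (L : V ≃ₗ[ZMod p] V) (t : V)
    [Fintype {f : Dual (ZMod p) V // f ∘ₗ (L : V →ₗ[ZMod p] V) = f}] :
    (Nat.card {v : V // t + L v = v} : ℂ) =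
      ∑ f : {f : Dual (ZMod p) V // f ∘ₗ (L : V →ₗ[ZMod p] V) = f},
        ZMod.stdAddChar (N := p) (f.1 t) := by
  classical
  have hd := dual_count L t
  have hp1 : ((p : ℤ) - 1) ≠ 0 := by
    have := (Fact.out : p.Prime).one_lt
    omega
  by_cases hall : ∀ f : Dual (ZMod p) V, f ∘ₗ (L : V →ₗ[ZMod p] V) = f → f t = 0
  · have h1 : Nat.card {f : Dual (ZMod p) V // f ∘ₗ (L : V →ₗ[ZMod p] V) = f ∧ f t = 0} =
        Nat.card {f : Dual (ZMod p) V // f ∘ₗ (L : V →ₗ[ZMod p] V) = f} :=
      Nat.card_congr (Equiv.subtypeEquivRight fun f => ⟨fun h => h.1, fun h => ⟨h, hall f h⟩⟩)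
    rw [h1] at hd
    have h2 : (Nat.card {f : Dual (ZMod p) V // f ∘ₗ (L : V →ₗ[ZMod p] V) = f} : ℤ) =
        (Nat.card {v : V // t + L v = v} : ℤ) := by
      apply mul_left_cancel₀ hp1
      rw [← hd]
      ring
    have h3 : (Nat.card {v : V // t + L v = v} : ℂ) =
        (Nat.card {f : Dual (ZMod p) V // f ∘ₗ (L : V →ₗ[ZMod p] V) = f} : ℂ) := by
      exact_mod_cast h2.symm
    rw [h3, Finset.sum_congr rfl fun f _ => by rw [hall f.1 f.2, AddChar.map_zero_eq_one],
      Finset.sum_const, Finset.card_univ, Nat.card_eq_fintype_card, nsmul_eq_mul, mul_one]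
  · push Not at hall
    obtain ⟨f₀, hf₀, hf₀t⟩ := hall
    have h1 : Nat.card {v : V // t + L v = v} = 0 := by
      have : IsEmpty {v : V // t + L v = v} := by
        refine ⟨fun v => hf₀t ?_⟩
        have h2 := congrArg f₀ v.2
        rw [map_add] at h2
        have h3 : f₀ (L v.1) = f₀ v.1 := LinearMap.congr_fun hf₀ v.1
        rw [h3] at h2
        exact add_eq_right.1 h2
      exact Nat.card_of_isEmpty
    rw [h1, Nat.cast_zero]
    have hfin : Finite (Dual (ZMod p) V) := Module.finite_of_finite (ZMod p)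
    have hfW : Fintype (fixD L) := Fintype.ofFinite _
    rw [← char_sum_zero (fixD L) t (f₀ := f₀) hf₀ hf₀t]
    exact Finset.sum_bij (fun (f : fixD L) _ =>
      (⟨f.1, f.2⟩ : {f : Dual (ZMod p) V // f ∘ₗ (L : V →ₗ[ZMod p] V) = f}))
      (fun f _ => Finset.mem_univ _) (fun f _ g _ h => Subtype.ext (congrArg Subtype.val h))
      (fun f _ => ⟨⟨f.1, f.2⟩, Finset.mem_univ _, rfl⟩) (fun f _ => rfl)

end

/-! ### The decomposition -/

section
variable {G : Type} [Group G] [Finite G] {p : ℕ} [Fact p.Prime]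

/-- the character of the stabiliser of a linear functional -/
noncomputable def lamD {V : Type} [AddCommGroup V] [Module (ZMod p) V] (L : G →* (V ≃ₗ[ZMod p] V))
    (t : G → V) (ht : ∀ g h, t (g * h) = t g + L g (t h)) (S : Subgroup G)
    (f : Dual (ZMod p) V) (hf : ∀ s ∈ S, ∀ v, f (L s v) = f v) : S →* ℂˣ :=
  MonoidHom.toHomUnits
    { toFun := fun s => ZMod.stdAddChar (N := p) (f (t s))
      map_one' := by
        have h1 : t 1 = 0 := by
          have := ht 1 1
          rw [one_mul, map_one] at this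
          exact left_eq_add.1 this
        change ZMod.stdAddChar (N := p) (f (t 1)) = 1
        rw [h1, map_zero, AddChar.map_zero_eq_one]
      map_mul' := fun a b => by
        change ZMod.stdAddChar (N := p) (f (t (a * b : G))) = _
        rw [ht, map_add, hf a a.2, AddChar.map_add_eq_mul] }

theorem lamD_apply {V : Type} [AddCommGroup V] [Module (ZMod p) V] (L : G →* (V ≃ₗ[ZMod p] V))
    (t : G → V) (ht : ∀ g h, t (g * h) = t g + L g (t h)) (S : Subgroup G)
    (f : Dual (ZMod p) V) (hf : ∀ s ∈ S, ∀ v, f (L s v) = f v) (s : S) :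
    ((lamD L t ht S f hf s : ℂˣ) : ℂ) = ZMod.stdAddChar (N := p) (f (t s)) := rfl

theorem stdAddChar_pow (c : ZMod p) : ZMod.stdAddChar (N := p) c ^ p = 1 := by
  rw [← AddChar.map_nsmul_eq_pow]
  have : p • c = 0 := by
    rw [nsmul_eq_mul, ZMod.natCast_self, zero_mul]
  rw [this, AddChar.map_zero_eq_one]

/-- **Permutation characters of groups with an elementary abelian normal supplement.** -/
theorem decompose (H A : Subgroup G) [A.Normal] (hcomm : ∀ a ∈ A, ∀ b ∈ A, a * b = b * a)
    (hexp : ∀ a ∈ A, a ^ p = 1) (htop : A ⊔ H = ⊤) (hH : H ≠ ⊤) :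
    ∃ (J : Type) (_ : Fintype J) (S : J → Subgroup G) (lam : ∀ j, S j →* ℂˣ),
      (∀ j, (S j).index < H.index) ∧ (∀ j, lam j ^ p = 1) ∧ (∑ j, (S j).index = H.index) ∧
      ∀ g : G, (Nat.card {c : G ⧸ H // g • c = c} : ℂ) = ∑ j, induced (S j) (lam j) g := by
  classical
  obtain ⟨V, iV, iM, iF, L, t, q, ht, -, -, -, -, -, -, hfix, hcard⟩ :=
    exists_affine (p := p) H A hcomm hexp htop
  let _ := Pool.Agent.H453.MC.actD L
  have hfin : Finite (Dual (ZMod p) V) := Module.finite_of_finite (ZMod p)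
  have _ : Fintype (Dual (ZMod p) V) := Fintype.ofFinite _
  have _ : Fintype (MulAction.orbitRel.Quotient G (Dual (ZMod p) V)) := Fintype.ofFinite _
  have hsm : ∀ (g : G) (f : Dual (ZMod p) V) (v : V), (g • f) v = f (L g⁻¹ v) := fun g f v => rfl
  have hLi : ∀ (g : G) (v : V), L g⁻¹ (L g v) = v := fun g v => by
    rw [← LinearEquiv.mul_apply, ← map_mul, inv_mul_cancel, map_one]
    rfl
  have hLi' : ∀ (g : G) (v : V), L g (L g⁻¹ v) = v := fun g v => by
    rw [← LinearEquiv.mul_apply, ← map_mul, mul_inv_cancel, map_one]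
    rfl
  have hst : ∀ (g : G) (f : Dual (ZMod p) V), g • f = f ↔ ∀ v, f (L g v) = f v := by
    intro g f
    constructor
    · intro h v
      have h1 := LinearMap.congr_fun h (L g v)
      rw [hsm, hLi] at h1
      exact h1.symm
    · intro h
      refine LinearMap.ext fun v => ?_
      rw [hsm, ← h (L g⁻¹ v), hLi']
  have t1 : t 1 = 0 := by
    have := ht 1 1
    rw [one_mul, map_one] at this
    exact left_eq_add.1 this
  let lam : ∀ f : Dual (ZMod p) V, MulAction.stabilizer G f →* ℂˣ := fun f =>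
    lamD L t ht (MulAction.stabilizer G f) f (fun s hs v => (hst s f).1 hs v)
  have hc : ∀ (g : G) (f : Dual (ZMod p) V) (s : G) (hs : s • f = f)
      (hs' : (g * s * g⁻¹) • (g • f) = g • f),
      lam (g • f) ⟨g * s * g⁻¹, hs'⟩ = lam f ⟨s, hs⟩ := by
    intro g f s hs hs'
    apply Units.ext
    change ZMod.stdAddChar (N := p) ((g • f) (t (g * s * g⁻¹))) = ZMod.stdAddChar (N := p) (f (t s))
    congr 1
    have h1 : L g⁻¹ (t g) = - t g⁻¹ := by
      have h2 := ht g⁻¹ g
      rw [inv_mul_cancel, t1] at h2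
      exact (neg_eq_of_add_eq_zero_right h2.symm).symm
    have h3 : L g⁻¹ (t (g * s * g⁻¹)) = - t g⁻¹ + t s + L s (t g⁻¹) := by
      rw [ht, ht, map_mul, LinearEquiv.mul_apply, map_add, map_add, hLi, hLi, h1]
    rw [hsm, h3, map_add, map_add, map_neg, (hst s f).1 hs]
    ring
  refine ⟨MulAction.orbitRel.Quotient G (Dual (ZMod p) V), inferInstance,
    fun o => MulAction.stabilizer G (Quotient.out o), fun o => lam (Quotient.out o), fun o => ?_,
    fun o => ?_, ?_, fun g => ?_⟩
  · -- the index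
    rw [MulAction.index_stabilizer, ← hcard]
    have hV : Nat.card V = Nat.card (Dual (ZMod p) V) := by
      rw [Module.natCard_eq_pow_finrank (K := ZMod p) (V := V),
        Module.natCard_eq_pow_finrank (K := ZMod p) (V := Dual (ZMod p) V),
        Subspace.dual_finrank_eq]
    have hV1 : 1 < Nat.card V := by
      rw [hcard]
      have h1 : H.index ≠ 0 := Subgroup.index_ne_zero_of_finite
      have h2 : H.index ≠ 1 := fun h => hH (Subgroup.index_eq_one.1 h)
      omega
    set f := Quotient.out o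
    by_cases hf : f = 0
    · rw [hf]
      have h3 : MulAction.orbit G (0 : Dual (ZMod p) V) = {0} := by
        ext z
        rw [MulAction.mem_orbit_iff, Set.mem_singleton_iff]
        constructor
        · rintro ⟨g, rfl⟩
          exact smul_zero g
        · rintro rfl
          exact ⟨1, smul_zero _⟩
      rw [h3, Set.ncard_singleton]
      exact hV1
    · rw [hV, ← Set.ncard_univ]
      refine Set.ncard_lt_ncard ?_ (Set.toFinite _)
      refine ⟨Set.subset_univ _, fun h => ?_⟩
      have h3 : (0 : Dual (ZMod p) V) ∈ MulAction.orbit G f := h (Set.mem_univ _)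
      obtain ⟨g, hg⟩ := h3
      apply hf
      have h4 : g • f = 0 := hg
      rw [← inv_smul_smul g f, h4, smul_zero]
  · refine MonoidHom.ext fun s => Units.ext ?_
    change ((lam (Quotient.out o) s) ^ p : ℂˣ).val = ((1 : ℂˣ) : ℂ)
    rw [Units.val_pow_eq_pow_val]
    exact stdAddChar_pow _
  · have hV : Nat.card V = Nat.card (Dual (ZMod p) V) := by
      rw [Module.natCard_eq_pow_finrank (K := ZMod p) (V := V),
        Module.natCard_eq_pow_finrank (K := ZMod p) (V := Dual (ZMod p) V),
        Subspace.dual_finrank_eq]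
    rw [← hcard, hV, Nat.card_congr (MulAction.selfEquivSigmaOrbits G (Dual (ZMod p) V)),
      Nat.card_sigma]
    refine Finset.sum_congr rfl fun o _ => ?_
    rw [MulAction.index_stabilizer]
    rfl
  · rw [← sum_fixed lam hc g, hfix g, affine_sum (L g) (t g)]
    have h1 : ∀ f : Dual (ZMod p) V, val lam g f =
        if f ∘ₗ (L g : V →ₗ[ZMod p] V) = f then ZMod.stdAddChar (N := p) (f (t g)) else 0 := by
      intro f
      unfold val
      have e : g • f = f ↔ f ∘ₗ (L g : V →ₗ[ZMod p] V) = f := by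
        rw [hst]
        exact ⟨fun h => LinearMap.ext h, fun h v => LinearMap.congr_fun h v⟩
      by_cases h : g • f = f
      · rw [dif_pos h, if_pos (e.1 h)]
        rfl
      · rw [dif_neg h, if_neg (fun h' => h (e.2 h'))]
    rw [Finset.sum_congr rfl fun f _ => h1 f, ← Finset.sum_filter]
    exact (Finset.sum_subtype (Finset.univ.filter fun f : Dual (ZMod p) V =>
      f ∘ₗ (L g : V →ₗ[ZMod p] V) = f) (fun f => by simp)
      (fun f => ZMod.stdAddChar (N := p) (f (t g)))).symm

end

end Pool.Agent.H453.K2
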