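import Pool.Agent.H453.K2.Grp

/-! Permutation characters of groups with an elementary abelian normal subgroup. -/

set_option autoImplicit false
set_option linter.unusedSectionVars false

namespace Pool.Agent.H453.K2

open Pool.Agent.Q92.RT (induced)

section
variable {G : Type} [Group G] [Finite G]

/-- permutation characters are induced -/
theorem card_fixed_eq (H : Subgroup G) (g : G) :
    (Nat.card {c : G ⧸ H // g • c = c} : ℂ) = induced H 1 g := by
  classical
  have : Fintype G := Fintype.ofFinite G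
  have hH : (Nat.card H : ℂ) ≠ 0 := by exact_mod_cast Nat.card_pos.ne'
  unfold induced
  rw [finsum_eq_sum_of_fintype]
  have h1 : ∀ x : G, (if h : x⁻¹ * g * x ∈ H then
      (((1 : H →* ℂˣ) ⟨x⁻¹ * g * x, h⟩ : ℂˣ) : ℂ) else 0) =
      if x⁻¹ * g * x ∈ H then 1 else 0 := by
    intro x
    split_ifs
    · rw [MonoidHom.one_apply, Units.val_one]
    · rfl
  rw [Finset.sum_congr rfl fun x _ => h1 x, Finset.sum_boole, ← Fintype.card_subtype,
    ← Nat.card_eq_fintype_card]
  have hmem : ∀ x : G, x⁻¹ * g * x ∈ H ↔ g • (x : G ⧸ H) = x := by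
    intro x
    rw [eq_comm]
    change _ ↔ (x : G ⧸ H) = ((g * x : G) : G ⧸ H)
    rw [QuotientGroup.eq, mul_assoc]
  have hout : ∀ c : G ⧸ H, ((c.out : G) : G ⧸ H) = c := fun c => Quotient.out_eq c
  have hmk : ∀ (c : G ⧸ H) (h : H), ((c.out * h : G) : G ⧸ H) = c := fun c h => by
    rw [QuotientGroup.mk_mul_of_mem _ h.2, hout]
  let e : {x : G // x⁻¹ * g * x ∈ H} ≃ {c : G ⧸ H // g • c = c} × H :=
    { toFun := fun x => ⟨⟨(x.1 : G ⧸ H), (hmem x.1).1 x.2⟩, ⟨((x.1 : G ⧸ H).out)⁻¹ * x.1, by
        rw [← QuotientGroup.eq, hout]⟩⟩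
      invFun := fun p => ⟨p.1.1.out * p.2.1, by
        rw [hmem, hmk]
        exact p.1.2⟩
      left_inv := fun x => by
        apply Subtype.ext
        simp only
        rw [mul_inv_cancel_left]
      right_inv := fun p => by
        have h := hmk p.1.1 p.2
        apply Prod.ext
        · exact Subtype.ext h
        · apply Subtype.ext
          simp only
          rw [h, inv_mul_cancel_left] }
  rw [Nat.card_congr e, Nat.card_prod]
  push_cast
  field_simp

open scoped Classical in
/-- the extension by zero -/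
noncomputable def ev (S : Subgroup G) (lam : S →* ℂˣ) (y : G) : ℂ :=
  if h : y ∈ S then ((lam ⟨y, h⟩ : ℂˣ) : ℂ) else 0

theorem induced_ev (S : Subgroup G) (lam : S →* ℂˣ) (g : G) [Fintype G] :
    induced S lam g = (Nat.card S : ℂ)⁻¹ * ∑ x : G, ev S lam (x⁻¹ * g * x) := by
  unfold induced ev
  rw [finsum_eq_sum_of_fintype]

/-- characters of subgroups of subgroups -/
noncomputable def push (B : Subgroup G) (S : Subgroup B) (lam : S →* ℂˣ) :
    S.map B.subtype →* ℂˣ :=
  lam.comp (S.equivMapOfInjective B.subtype B.subtype_injective).symm.toMonoidHom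

theorem push_apply (B : Subgroup G) (S : Subgroup B) (lam : S →* ℂˣ) (y : B) (hy : y ∈ S)
    (hy' : (y : G) ∈ S.map B.subtype) : push B S lam ⟨y, hy'⟩ = lam ⟨y, hy⟩ := by
  unfold push
  rw [MonoidHom.comp_apply]
  congr 1
  change (S.equivMapOfInjective B.subtype B.subtype_injective).symm ⟨(y : G), hy'⟩ = _
  rw [MulEquiv.symm_apply_eq]
  apply Subtype.ext
  rw [Subgroup.coe_equivMapOfInjective_apply]
  rfl

theorem ev_push (B : Subgroup G) (S : Subgroup B) (lam : S →* ℂˣ) (y : B) :
    ev (S.map B.subtype) (push B S lam) (y : G) = ev S lam y := by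
  have h1 : (y : G) ∈ S.map B.subtype ↔ y ∈ S := by
    constructor
    · rintro ⟨z, hz, hzy⟩
      have : z = y := Subtype.ext hzy
      rwa [← this]
    · intro h
      exact ⟨y, h, rfl⟩
  unfold ev
  by_cases h : y ∈ S
  · rw [dif_pos (h1.2 h), dif_pos h, push_apply B S lam y h]
  · rw [dif_neg (fun h' => h (h1.1 h')), dif_neg h]

theorem ev_push_not (B : Subgroup G) (S : Subgroup B) (lam : S →* ℂˣ) {y : G} (hy : y ∉ B) :
    ev (S.map B.subtype) (push B S lam) y = 0 := by
  unfold ev
  rw [dif_neg]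
  rintro ⟨z, -, rfl⟩
  exact hy z.2

open scoped Classical in
/-- **Induction in stages.** -/
theorem induced_push (B : Subgroup G) (S : Subgroup B) (lam : S →* ℂˣ) (g : G) [Fintype G] :
    induced (S.map B.subtype) (push B S lam) g = (Nat.card B : ℂ)⁻¹ *
      ∑ x : G, if h : x⁻¹ * g * x ∈ B then induced S lam ⟨x⁻¹ * g * x, h⟩ else 0 := by
  have hfB : Fintype B := Fintype.ofFinite B
  have hB : (Nat.card B : ℂ) ≠ 0 := by exact_mod_cast Nat.card_pos.ne'
  have hcard : Nat.card (S.map B.subtype) = Nat.card S :=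
    Subgroup.card_map_of_injective B.subtype_injective
  rw [induced_ev, hcard]
  have h1 : ∀ x : G, (if h : x⁻¹ * g * x ∈ B then induced S lam ⟨x⁻¹ * g * x, h⟩ else 0) =
      (Nat.card S : ℂ)⁻¹ * ∑ y : B,
        ev (S.map B.subtype) (push B S lam) ((x * y)⁻¹ * g * (x * y)) := by
    intro x
    have hconj : ∀ y : B, (x * y : G)⁻¹ * g * (x * y) = (y : G)⁻¹ * (x⁻¹ * g * x) * y := by
      intro y
      group
    split_ifs with h
    · rw [induced_ev]
      congr 1
      refine Finset.sum_congr rfl fun y _ => ?_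
      rw [hconj, ← ev_push]
      rfl
    · rw [Finset.sum_eq_zero, mul_zero]
      intro y _
      rw [hconj]
      apply ev_push_not
      intro h'
      apply h
      have h2 := B.mul_mem (B.mul_mem y.2 h') (B.inv_mem y.2)
      have h3 : (y : G) * ((y : G)⁻¹ * (x⁻¹ * g * x) * y) * (y : G)⁻¹ = x⁻¹ * g * x := by group
      rwa [h3] at h2
  rw [Finset.sum_congr rfl fun x _ => h1 x, ← Finset.mul_sum, Finset.sum_comm]
  have h2 : ∀ y : B, ∑ x : G, ev (S.map B.subtype) (push B S lam) ((x * y)⁻¹ * g * (x * y)) =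
      ∑ x : G, ev (S.map B.subtype) (push B S lam) (x⁻¹ * g * x) := fun y =>
    Fintype.sum_equiv (Equiv.mulRight (y : G)) _ _ fun x => rfl
  rw [Finset.sum_congr rfl fun y _ => h2 y, Finset.sum_const, Finset.card_univ,
    ← Nat.card_eq_fintype_card, nsmul_eq_mul]
  field_simp

/-- **Permutation characters of groups with an elementary abelian normal subgroup.** -/
theorem decompose_gen {p : ℕ} [Fact p.Prime] (H A : Subgroup G) [hA : A.Normal]
    (hcomm : ∀ a ∈ A, ∀ b ∈ A, a * b = b * a)
    (hexp : ∀ a ∈ A, a ^ p = 1) (hAH : ¬ A ≤ H) :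
    ∃ (J : Type) (_ : Fintype J) (S : J → Subgroup G) (lam : ∀ j, S j →* ℂˣ),
      (∀ j, (S j).index < H.index) ∧ (∀ j, lam j ^ p = 1) ∧ (∑ j, (S j).index = H.index) ∧
      ∀ g : G, induced H 1 g = ∑ j, induced (S j) (lam j) g := by
  classical
  have hfG : Fintype G := Fintype.ofFinite G
  set B := A ⊔ H with hB
  have hHB : H ≤ B := le_sup_right
  have hAB : A ≤ B := le_sup_left
  obtain ⟨J, hJ, S, lam, hS, hlam, hsum, hdec⟩ := decompose (p := p) (H.subgroupOf B)
    (A.subgroupOf B) (fun a ha b hb => Subtype.ext (hcomm _ ha _ hb))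
    (fun a ha => Subtype.ext (hexp _ ha)) (by
      rw [← Subgroup.subgroupOf_sup hAB hHB, hB, Subgroup.subgroupOf_self])
    (by
      rw [Ne, Subgroup.subgroupOf_eq_top]
      exact fun h => hAH (hAB.trans h))
  have hidx : ∀ U : Subgroup B, (U.map B.subtype).index = U.index * B.index := fun U =>
    Subgroup.index_map_subtype U
  have hHmap : (H.subgroupOf B).map B.subtype = H := by
    rw [Subgroup.subgroupOf_map_subtype, inf_eq_left.2 hHB]
  have hHidx : H.index = (H.subgroupOf B).index * B.index := by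
    rw [← hidx, hHmap]
  have hB0 : 0 < B.index := Nat.pos_of_ne_zero Subgroup.index_ne_zero_of_finite
  refine ⟨J, hJ, fun j => (S j).map B.subtype, fun j => push B (S j) (lam j), fun j => ?_,
    fun j => ?_, ?_, fun g => ?_⟩
  · rw [hidx, hHidx]
    exact Nat.mul_lt_mul_of_pos_right (hS j) hB0
  · refine MonoidHom.ext fun s => ?_
    change (lam j _) ^ p = 1
    exact DFunLike.congr_fun (hlam j) _
  · simp only [hidx]
    rw [← Finset.sum_mul, hsum, hHidx]
  · have h1 : ∀ H1 H2 : Subgroup G, H1 = H2 → induced H1 1 g = induced H2 1 g := by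
      rintro _ _ rfl
      rfl
    have h2 : push B (H.subgroupOf B) 1 = 1 := MonoidHom.ext fun _ => rfl
    rw [← h1 _ _ hHmap, ← h2, induced_push]
    simp only [induced_push]
    rw [← Finset.mul_sum, Finset.sum_comm]
    congr 1
    refine Finset.sum_congr rfl fun x _ => ?_
    by_cases h : x⁻¹ * g * x ∈ B
    · simp only [dif_pos h]
      rw [← hdec, card_fixed_eq]
    · simp only [dif_neg h, Finset.sum_const_zero]

end

end Pool.Agent.H453.K2
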