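import Pool.Agent.H453.K2.Tw
import Pool.Agent.H453.K2.Grp2

/-! Relations between incomplete `L`-series of twists by characters. -/

set_option autoImplicit false

namespace Pool.Agent.H453.K2

open NumberField IsDedekindDomain Complex Polynomial Filter
open Pool.Agent.H921R2.TatePole (nm two_le_nm nm_summable)
open Pool.Agent.H341R2.EC
open Pool.Agent.H341R2 (finite_v card_v)
open Pool.Agent.R433.MD
open Pool.Agent.H453.EN
open Pool.Agent.Q92.RT (induced)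
open Pool.Agent.Q92.AR (fixer frob Unramified induced_frob frob_spec norm_char)
open Pool.Agent.Q5.BR (above mem_above rdeg absNorm_rdeg)

section
variable {F : Type} [Field F] [NumberField F]

/-- the trace over an extension of the residue field -/
theorem trc_ext {E : WeierstrassCurve F} {W : WeierstrassCurve (𝓞 F)} (hW : IsModel E W)
    {v : HeightOneSpectrum (𝓞 F)} (h6 : (6 : 𝓞 F) ∉ v.asIdeal) (hΔ : W.Δ ∉ v.asIdeal)
    {Z : Type} [Field Z] [NumberField Z] [Algebra F Z]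
    {V : HeightOneSpectrum (𝓞 Z) → WeierstrassCurve (𝓞 Z)}
    (hV : ∀ w, IsMinAt (E.map (algebraMap F Z)) w (V w)) (w : Fib Z v) :
    trc V w.1 = Pool.Agent.H82R3.EK.luc ((nm v : ℤ) - aff (red v W)) (nm v) (fdeg w) ∧
      dlt V w.1 = 1 := by
  have hmem : ∀ x : 𝓞 F, x ∉ v.asIdeal → algebraMap (𝓞 F) (𝓞 Z) x ∉ w.1.asIdeal := by
    intro x hx h
    apply hx
    rw [fib_le w]
    exact h
  have hWF : IsModel (E.map (algebraMap F Z)) (W.map (algebraMap (𝓞 F) (𝓞 Z))) := by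
    obtain ⟨C, hC⟩ := hW
    refine ⟨C.map (algebraMap F Z), ?_⟩
    rw [WeierstrassCurve.map_variableChange, hC, WeierstrassCurve.map_map,
      WeierstrassCurve.map_map]
    congr 1
  have h6' : (6 : 𝓞 Z) ∉ w.1.asIdeal := by
    have := hmem 6 h6
    rwa [map_ofNat] at this
  have hΔ' : (W.map (algebraMap (𝓞 F) (𝓞 Z))).Δ ∉ w.1.asIdeal := by
    rw [WeierstrassCurve.map_Δ]
    exact hmem _ hΔ
  have h1 := minimal_good (hV w.1) hWF hΔ'
  have h2 := aff_model (hV w.1).1 hWF h1 hΔ' h6'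
  have e : red w.1 (W.map (algebraMap (𝓞 F) (𝓞 Z))) =
      (red v W).map (algebraMap (𝓞 F ⧸ v.asIdeal) (𝓞 Z ⧸ w.1.asIdeal)) := by
    unfold red
    rw [WeierstrassCurve.map_map, WeierstrassCurve.map_map]
    congr 1
  have hfin : Finite (𝓞 F ⧸ v.asIdeal) := finite_v v
  have hfin' : Finite (𝓞 Z ⧸ w.1.asIdeal) := finite_v w.1
  have hd6 : (6 : 𝓞 F ⧸ v.asIdeal) ≠ 0 := by
    have := mk_ne h6
    rwa [map_ofNat] at this
  have hdΔ : (red v W).Δ ≠ 0 := by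
    unfold red
    rw [WeierstrassCurve.map_Δ]
    exact mk_ne hΔ
  have h3 := Pool.Agent.Q92.RT.trace_ext (κ := 𝓞 Z ⧸ w.1.asIdeal) hd6 (red v W) hdΔ
  rw [← e, ← h2] at h3
  refine ⟨h3, ?_⟩
  unfold dlt
  rw [if_neg h1]

/-- the twisted local factor at a prime over a prime of good reduction -/
theorem tlf_ext {E : WeierstrassCurve F} {W : WeierstrassCurve (𝓞 F)} (hW : IsModel E W)
    {v : HeightOneSpectrum (𝓞 F)} (h6 : (6 : 𝓞 F) ∉ v.asIdeal) (hΔ : W.Δ ∉ v.asIdeal)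
    {Z : Type} [Field Z] [NumberField Z] [Algebra F Z]
    {V : HeightOneSpectrum (𝓞 Z) → WeierstrassCurve (𝓞 Z)}
    (hV : ∀ w, IsMinAt (E.map (algebraMap F Z)) w (V w)) (c : HeightOneSpectrum (𝓞 Z) → ℂ)
    (s : ℂ) {α β : ℂ} (h1 : α + β = (((nm v : ℤ) - aff (red v W) : ℤ) : ℂ))
    (h2 : α * β = (((nm v : ℕ) : ℤ) : ℂ)) (w : Fib Z v) :
    tlf V c s w.1 = (1 - c w.1 * (α * ((nm v : ℕ) : ℂ) ^ (-s)) ^ fdeg w) *
      (1 - c w.1 * (β * ((nm v : ℕ) : ℂ) ^ (-s)) ^ fdeg w) := by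
  obtain ⟨h3, h4⟩ := trc_ext hW h6 hΔ hV w
  have hq0 : ((nm v : ℕ) : ℂ) ≠ 0 := by exact_mod_cast (nm_pos v).ne'
  set q : ℂ := ((nm v : ℕ) : ℂ) with hq
  have e2 : ∀ z : ℂ, ((nm w.1 : ℕ) : ℂ) ^ z = (q ^ z) ^ fdeg w := by
    intro z
    rw [nm_fib w, Nat.cast_pow, ← Complex.natCast_cpow_natCast_mul, ← Complex.cpow_nat_mul]
  have e3 : q ^ (1 - 2 * s) = q * (q ^ (-s)) ^ 2 := by
    rw [sub_eq_add_neg, Complex.cpow_add _ _ hq0, Complex.cpow_one]
    congr 1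
    rw [← Complex.cpow_nat_mul]
    congr 1
    push_cast
    ring
  unfold tlf
  rw [h3, h4, Pool.Agent.H82R3.EK.luc_eq h1 h2, e2, e2, e3, one_mul]
  have h5 : (q : ℂ) = α * β := by
    rw [h2, hq]
    push_cast
    rfl
  rw [h5]
  ring

/-- the roots -/
theorem exists_roots (a q : ℂ) : ∃ α β : ℂ, α + β = a ∧ α * β = q := by
  obtain ⟨d, hd⟩ := IsAlgClosed.exists_pow_nat_eq (a ^ 2 - 4 * q) (n := 2) two_pos
  refine ⟨(a + d) / 2, (a - d) / 2, by ring, ?_⟩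
  have : (a + d) / 2 * ((a - d) / 2) = (a ^ 2 - d ^ 2) / 4 := by ring
  rw [this, hd]
  ring

/-- a natural number in finitely many primes -/
theorem exists_nat_fin {S : Set (HeightOneSpectrum (𝓞 F))} (hS : S.Finite) :
    ∃ N : ℕ, N ≠ 0 ∧ ∀ v ∈ S, Dv N v := by
  classical
  refine ⟨∏ v ∈ hS.toFinset, Ideal.absNorm v.asIdeal, ?_, fun v hv => ?_⟩
  · refine Finset.prod_ne_zero_iff.2 fun v _ => ?_
    rw [Ne, Ideal.absNorm_eq_zero_iff]
    exact v.ne_bot
  · have h1 : Ideal.absNorm v.asIdeal ∣ ∏ v ∈ hS.toFinset, Ideal.absNorm v.asIdeal :=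
      Finset.dvd_prod_of_mem _ (hS.mem_toFinset.2 hv)
    refine dv_of_dvd h1 ?_
    exact Ideal.absNorm_mem _

/-- **Relations between twisted L-series.** -/
theorem relC {ι : Type} [Fintype ι] (Z : ι → Type) [∀ i, Field (Z i)]
    [∀ i, NumberField (Z i)] [∀ i, Algebra F (Z i)] (a b : ι → ℕ)
    (c : ∀ i, HeightOneSpectrum (𝓞 (Z i)) → ℂ) (hc : ∀ i w, ‖c i w‖ ≤ 1)
    {S : Set (HeightOneSpectrum (𝓞 F))} (hS : S.Finite)
    (hps : ∀ v, v ∉ S → ∀ n : ℕ, 0 < n →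
      ∑ i, (a i : ℂ) * psum (fun w : Fib (Z i) v => fdeg w) (fun w => c i w.1) n =
      ∑ i, (b i : ℂ) * psum (fun w : Fib (Z i) v => fdeg w) (fun w => c i w.1) n)
    (E : WeierstrassCurve F) (hE : E.IsElliptic)
    (V : ∀ i, HeightOneSpectrum (𝓞 (Z i)) → WeierstrassCurve (𝓞 (Z i)))
    (hV : ∀ i w, IsMinAt (E.map (algebraMap F (Z i))) w (V i w)) :
    ∃ N0 : ℕ, N0 ≠ 0 ∧ ∀ N : ℕ, N ≠ 0 → N0 ∣ N → ∀ s : ℂ, 3 / 2 < s.re →
      ∏ i, LC N (V i) (c i) s ^ a i = ∏ i, LC N (V i) (c i) s ^ b i := by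
  classical
  obtain ⟨W, hW, hWΔ⟩ := exists_model E hE
  have h6 : (6 : 𝓞 F) ≠ 0 := by norm_num
  obtain ⟨N1, hN1, hbad1⟩ := exists_nat (mul_ne_zero h6 hWΔ)
  obtain ⟨N2, hN2, hbad2⟩ := exists_nat_fin hS
  -- local products
  let A : (ι → ℕ) → ℂ → HeightOneSpectrum (𝓞 F) → ℂ := fun e s v =>
    ∏ i, (∏ w : Fib (Z i) v, (tlf (V i) (c i) s w.1)⁻¹) ^ e i
  have hgood : ∀ (s : ℂ) (v : HeightOneSpectrum (𝓞 F)), ¬ Dv (N1 * N2) v → A a s v = A b s v := by
    intro s v hv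
    have hv1 : 6 * W.Δ ∉ v.asIdeal := fun h => hv (dv_of_dvd (dvd_mul_right _ _) (hbad1 v h))
    have hvS : v ∉ S := fun h => hv (dv_of_dvd (dvd_mul_left _ _) (hbad2 v h))
    have hvΔ : W.Δ ∉ v.asIdeal := fun h => hv1 (v.asIdeal.mul_mem_left _ h)
    have hv6 : (6 : 𝓞 F) ∉ v.asIdeal := fun h => hv1 (v.asIdeal.mul_mem_right _ h)
    obtain ⟨α, β, h1, h2⟩ := exists_roots (((nm v : ℤ) - aff (red v W) : ℤ) : ℂ)
      (((nm v : ℕ) : ℤ) : ℂ)
    have hA : ∀ e : ι → ℕ, A e s v = ((∏ i, (∏ w : Fib (Z i) v,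
        (1 - c i w.1 * (α * ((nm v : ℕ) : ℂ) ^ (-s)) ^ fdeg w)) ^ e i) *
        ∏ i, (∏ w : Fib (Z i) v,
        (1 - c i w.1 * (β * ((nm v : ℕ) : ℂ) ^ (-s)) ^ fdeg w)) ^ e i)⁻¹ := by
      intro e
      rw [← Finset.prod_mul_distrib, ← Finset.prod_inv_distrib]
      refine Finset.prod_congr rfl fun i _ => ?_
      rw [← mul_pow, ← Finset.prod_mul_distrib, ← inv_pow, ← Finset.prod_inv_distrib]
      congr 1
      refine Finset.prod_congr rfl fun w _ => ?_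
      rw [tlf_ext hW hv6 hvΔ (hV i) (c i) s h1 h2 w]
    have hp := fun z => prod_of_psum (fun i => Fib (Z i) v) (fun i w => fdeg w)
      (fun i w => fdeg_pos w) (fun i w => c i w.1) (fun i w => hc i w.1) a b (hps v hvS) z
    rw [hA, hA, hp, hp]
  refine ⟨N1 * N2, mul_ne_zero hN1 hN2, fun N hN hNN s hs => ?_⟩
  let AN : (ι → ℕ) → HeightOneSpectrum (𝓞 F) → ℂ := fun e v =>
    ∏ i, (∏ w : Fib (Z i) v, tef N (V i) (c i) s w.1) ^ e i
  have hprod : ∀ e : ι → ℕ, HasProd (AN e) (∏ i, LC N (V i) (c i) s ^ e i) := by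
    intro e
    refine hasProd_prod fun i _ => ?_
    have hEi : (E.map (algebraMap F (Z i))).IsElliptic := inferInstance
    exact hasProd_pow (hasProd_fib (hasProd_LC hEi (hV i) (hc i) N hs)) (e i)
  have hdiv : ∀ (e : ι → ℕ) (v : HeightOneSpectrum (𝓞 F)), Dv N v → AN e v = 1 := by
    intro e v hv
    refine Finset.prod_eq_one fun i _ => ?_
    rw [Finset.prod_eq_one, one_pow]
    intro w _
    exact if_pos ((dv_fib w).2 hv)
  have hndiv : ∀ (e : ι → ℕ) (v : HeightOneSpectrum (𝓞 F)), ¬ Dv N v → AN e v = A e s v := by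
    intro e v hv
    refine Finset.prod_congr rfl fun i _ => ?_
    congr 1
    refine Finset.prod_congr rfl fun w _ => ?_
    exact if_neg (fun h => hv ((dv_fib w).1 h))
  refine (hprod a).unique ((hprod b).congr_fun fun v => ?_)
  by_cases hv : Dv N v
  · rw [hdiv a v hv, hdiv b v hv]
  · rw [hndiv a v hv, hndiv b v hv]
    exact hgood s v (fun h => hv (dv_of_dvd hNN h))

end

section
variable {F Z M : Type} [Field F] [NumberField F] [Field Z] [NumberField Z] [Field M]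
  [NumberField M] [Algebra F Z] [Algebra F M] [Algebra Z M] [IsScalarTower F Z M]

/-- the group of `M / Z` in the group of `M / F` -/
noncomputable def resH (F Z M : Type) [Field F] [NumberField F] [Field Z] [NumberField Z] [Field M]
    [NumberField M] [Algebra F Z] [Algebra F M] [Algebra Z M] [IsScalarTower F Z M] :
    (M ≃ₐ[Z] M) →* fixer F Z M where
  toFun y := ⟨y.restrictScalars F, fun x => y.commutes x⟩
  map_one' := rfl
  map_mul' _ _ := rfl

theorem und_eq (w : HeightOneSpectrum (𝓞 Z)) : und (K := F) w = w.under (𝓞 F) := by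
  apply HeightOneSpectrum.ext
  rfl

theorem fdeg_eq {v : HeightOneSpectrum (𝓞 F)} (w : Fib Z v) : fdeg w = rdeg F w.1 := by
  have h1 := nm_fib w
  have h2 : nm w.1 = nm v ^ rdeg F w.1 := by
    have h := absNorm_rdeg (K := F) w.1
    rw [← und_eq, w.2] at h
    exact h
  rw [h1] at h2
  exact Nat.pow_right_injective (two_le_nm v) h2

variable [IsGalois F M] [IsGalois Z M]

theorem psum_above (ψ : fixer F Z M →* ℂˣ) {v : HeightOneSpectrum (𝓞 F)}
    (hv : Unramified M v) (n : ℕ) :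
    psum (fun w : Fib Z v => fdeg w)
      (fun w => (((ψ.comp (resH F Z M)) (frob M w.1) : ℂˣ) : ℂ)) n =
      induced (fixer F Z M) ψ (frob M v ^ n) := by
  classical
  rw [induced_frob hv (frob_spec v) ψ (ψ.comp (resH F Z M)) (fun y hy => rfl) n]
  unfold psum
  symm
  refine Finset.sum_bij' (fun w hw => (⟨w, by rw [und_eq]; exact mem_above.1 hw⟩ : Fib Z v))
    (fun w _ => w.1) (fun w hw => Finset.mem_univ _) (fun w _ => by
      rw [mem_above, ← und_eq]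
      exact w.2) (fun w hw => rfl) (fun w _ => rfl) fun w hw => ?_
  simp only [fdeg_eq]

end

end Pool.Agent.H453.K2
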