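import Pool.Graph.R_pool_sql_team_seeded_3997aac3.Q92.AR.ArtL

/-! Local identities: products over primes above a prime from the values of induced characters. -/

set_option autoImplicit false
set_option linter.unusedSectionVars false

namespace Pool.Agent.H453.K2

open Polynomial
open Pool.Agent.Q92.AR (hasSum_log one_sub_ne)

section
variable {W : Type} [Fintype W] (f : W → ℕ) (hf : ∀ w, 0 < f w) (c : W → ℂ)
  (hc : ∀ w, ‖c w‖ ≤ 1)

/-- the power sums -/
noncomputable def psum (n : ℕ) : ℂ := ∑ w, if f w ∣ n then (f w : ℂ) * c w ^ (n / f w) else 0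

include hf hc in
theorem hasSum_fac {z : ℂ} (hz : ‖z‖ < 1) :
    HasSum (fun n : ℕ => psum f c (n + 1) * (z ^ (n + 1) / ((n + 1 : ℕ) : ℂ)))
      (∑ w, -Complex.log (1 - c w * z ^ f w)) := by
  have h1 : (fun n : ℕ => psum f c (n + 1) * (z ^ (n + 1) / ((n + 1 : ℕ) : ℂ))) =
      fun n : ℕ => ∑ w, (if f w ∣ n + 1 then (f w : ℂ) * c w ^ ((n + 1) / f w) else 0) *
        (z ^ (n + 1) / ((n + 1 : ℕ) : ℂ)) := by
    funext n
    rw [psum, Finset.sum_mul]
  rw [h1]
  refine hasSum_sum fun w _ => ?_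
  have hd := hf w
  have hlt : ‖c w * z ^ f w‖ < 1 := by
    rw [norm_mul, norm_pow]
    calc ‖c w‖ * ‖z‖ ^ f w ≤ 1 * ‖z‖ ^ f w :=
          mul_le_mul_of_nonneg_right (hc w) (by positivity)
      _ = ‖z‖ ^ f w := one_mul _
      _ < 1 := pow_lt_one₀ (norm_nonneg _) hz hd.ne'
  have h6 := hasSum_log hlt
  have hinj : Function.Injective fun m : ℕ => f w * (m + 1) - 1 := by
    intro m m' hmm
    have h3 : f w * (m + 1) - 1 + 1 = f w * (m + 1) :=
      Nat.sub_add_cancel (Nat.mul_pos hd m.succ_pos)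
    have h4 : f w * (m' + 1) - 1 + 1 = f w * (m' + 1) :=
      Nat.sub_add_cancel (Nat.mul_pos hd m'.succ_pos)
    have h5 : f w * (m + 1) = f w * (m' + 1) := by
      rw [← h3, ← h4]
      exact congrArg (· + 1) hmm
    have := Nat.eq_of_mul_eq_mul_left hd h5
    omega
  rw [← hinj.hasSum_iff]
  · refine h6.congr_fun fun m => ?_
    simp only [Function.comp]
    have h3 : f w * (m + 1) - 1 + 1 = f w * (m + 1) :=
      Nat.sub_add_cancel (Nat.mul_pos hd m.succ_pos)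
    rw [h3, if_pos (Dvd.intro _ rfl), Nat.mul_div_cancel_left _ hd, mul_pow, ← pow_mul,
      Nat.cast_mul]
    have hdc : (f w : ℂ) ≠ 0 := by exact_mod_cast hd.ne'
    have hmc : ((m + 1 : ℕ) : ℂ) ≠ 0 := by exact_mod_cast m.succ_ne_zero
    field_simp
  · intro n hn
    have : ¬ f w ∣ n + 1 := by
      rintro ⟨c, hc⟩
      apply hn
      have hc0 : c ≠ 0 := by
        rintro rfl
        omega
      obtain ⟨m, rfl⟩ := Nat.exists_eq_succ_of_ne_zero hc0
      refine ⟨m, ?_⟩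
      change f w * (m + 1) - 1 = n
      rw [← Nat.succ_eq_add_one m, ← hc]
      omega
    simp only [if_neg this, zero_mul]

include hf hc in
theorem exp_fac {z : ℂ} (hz : ‖z‖ < 1) :
    Complex.exp (-∑' n : ℕ, psum f c (n + 1) * (z ^ (n + 1) / ((n + 1 : ℕ) : ℂ))) =
      ∏ w, (1 - c w * z ^ f w) := by
  rw [(hasSum_fac f hf c hc hz).tsum_eq, ← Finset.sum_neg_distrib, Complex.exp_sum]
  refine Finset.prod_congr rfl fun w _ => ?_
  rw [neg_neg, Complex.exp_log]
  refine one_sub_ne ?_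
  rw [norm_mul, norm_pow]
  calc ‖c w‖ * ‖z‖ ^ f w ≤ 1 * ‖z‖ ^ f w :=
        mul_le_mul_of_nonneg_right (hc w) (by positivity)
    _ = ‖z‖ ^ f w := one_mul _
    _ < 1 := pow_lt_one₀ (norm_nonneg _) hz (hf w).ne'

end

/-- **Equal power sums give equal products.** -/
theorem prod_of_psum {ι : Type} [Fintype ι] (W : ι → Type) [∀ i, Fintype (W i)]
    (f : ∀ i, W i → ℕ) (hf : ∀ i w, 0 < f i w) (c : ∀ i, W i → ℂ) (hc : ∀ i w, ‖c i w‖ ≤ 1)
    (a b : ι → ℕ) (h : ∀ n : ℕ, 0 < n → ∑ i, (a i : ℂ) * psum (f i) (c i) n =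
      ∑ i, (b i : ℂ) * psum (f i) (c i) n) (z : ℂ) :
    ∏ i, (∏ w, (1 - c i w * z ^ f i w)) ^ a i = ∏ i, (∏ w, (1 - c i w * z ^ f i w)) ^ b i := by
  classical
  have hsmall : ∀ z : ℂ, ‖z‖ < 1 →
      ∏ i, (∏ w, (1 - c i w * z ^ f i w)) ^ a i = ∏ i, (∏ w, (1 - c i w * z ^ f i w)) ^ b i := by
    intro z hz
    have hkey : ∀ e : ι → ℕ, ∏ i, (∏ w, (1 - c i w * z ^ f i w)) ^ e i =
        Complex.exp (-∑' n : ℕ, (∑ i, (e i : ℂ) * psum (f i) (c i) (n + 1)) *
          (z ^ (n + 1) / ((n + 1 : ℕ) : ℂ))) := by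
      intro e
      have h1 : (fun n : ℕ => (∑ i, (e i : ℂ) * psum (f i) (c i) (n + 1)) *
          (z ^ (n + 1) / ((n + 1 : ℕ) : ℂ))) = fun n : ℕ => ∑ i, (e i : ℂ) *
            (psum (f i) (c i) (n + 1) * (z ^ (n + 1) / ((n + 1 : ℕ) : ℂ))) := by
        funext n
        rw [Finset.sum_mul]
        exact Finset.sum_congr rfl fun i _ => by ring
      rw [h1, Summable.tsum_finsetSum (fun i _ =>
        ((hasSum_fac (f i) (hf i) (c i) (hc i) hz).summable.mul_left _)),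
        ← Finset.sum_neg_distrib, Complex.exp_sum]
      refine Finset.prod_congr rfl fun i _ => ?_
      rw [← exp_fac (f i) (hf i) (c i) (hc i) hz, tsum_mul_left, ← Complex.exp_nat_mul]
      congr 1
      ring
    rw [hkey a, hkey b]
    congr 3
    funext n
    rw [h (n + 1) n.succ_pos]
  let P : (ι → ℕ) → ℂ[X] := fun e => ∏ i, (∏ w, (1 - C (c i w) * X ^ f i w)) ^ e i
  have hP : ∀ (e : ι → ℕ) (z : ℂ), (P e).eval z = ∏ i, (∏ w, (1 - c i w * z ^ f i w)) ^ e i := by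
    intro e z
    simp [P, eval_prod, eval_pow]
  have hinf : Set.Infinite {z : ℂ | (P a).eval z = (P b).eval z} := by
    have h1 : Metric.ball (0 : ℂ) 1 ⊆ {z : ℂ | (P a).eval z = (P b).eval z} := by
      intro z hz
      rw [Set.mem_ofPred_eq, hP, hP]
      exact hsmall z (by simpa using hz)
    refine Set.Infinite.mono h1 ?_
    exact infinite_of_mem_nhds (0 : ℂ) (Metric.ball_mem_nhds _ one_pos)
  have h2 := Polynomial.eq_of_infinite_eval_eq _ _ hinf
  rw [← hP, ← hP, h2]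

end Pool.Agent.H453.K2
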