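import Pool.Agent.H453.K2.Fac

/-! The structure of extensions over which the `L`-series are not products. -/

set_option autoImplicit false

namespace Pool.Agent.H453.K2

open NumberField IsDedekindDomain
open Pool.Agent.R433.MD (fx Ext)
open Pool.Agent.H453.MC (ext_restrict index_fix core_trivial exists_elementary relIndex_sup_eq)
open Pool.Agent.Q92.AR (fixer mem_fixer)
open IntermediateField
open scoped commutatorElement

section groups
variable {G : Type} [Group G] [Finite G]

/-- solvable normal subgroups -/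
theorem exists_elementary_normal {T : Subgroup G} (hT : T.Normal) (hs : Group.IsSolvable T)
    (hT1 : T ≠ ⊥) :
    ∃ (p : ℕ) (A : Subgroup G), p.Prime ∧ A.Normal ∧ (∀ a ∈ A, ∀ b ∈ A, a * b = b * a) ∧
      (∀ a ∈ A, a ^ p = 1) ∧ A ≠ ⊥ := by
  have hfin : {D : Subgroup G | D.Normal ∧ D ≠ ⊥ ∧ D ≤ T}.Finite := Set.toFinite _
  obtain ⟨D, hD⟩ := hfin.exists_minimal ⟨T, hT, hT1, le_rfl⟩
  obtain ⟨⟨hDn, hD1, hDT⟩, hmin⟩ := hD
  have hDs : Group.IsSolvable D :=
    Group.isSolvable_of_isSolvable_injective (f := Subgroup.inclusion hDT)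
      (Subgroup.inclusion_injective hDT)
  have hnt : Nontrivial D := (Subgroup.nontrivial_iff_ne_bot D).2 hD1
  have hlt : ⁅D, D⁆ < D := by
    rw [← Subgroup.map_subtype_commutator]
    have h1 := Group.IsSolvable.commutator_lt_top_of_nontrivial D
    refine lt_of_le_of_ne ?_ fun h => ?_
    · rintro _ ⟨x, -, rfl⟩
      exact x.2
    · apply h1.ne
      rw [eq_top_iff]
      intro x _
      have h2 : (x : G) ∈ (_root_.commutator D).map D.subtype := by
        rw [h]
        exact x.2
      obtain ⟨y, hy, hxy⟩ := h2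
      have : y = x := Subtype.ext hxy
      rwa [← this]
  have hbot : ⁅D, D⁆ = ⊥ := by
    by_contra h
    exact absurd (hmin (y := ⁅D, D⁆) ⟨inferInstance, h, hlt.le.trans hDT⟩ hlt.le)
      (not_le_of_gt hlt)
  have hcomm : ∀ a ∈ D, ∀ b ∈ D, a * b = b * a := by
    intro a ha b hb
    have h1 : ⁅a, b⁆ ∈ ⁅D, D⁆ := Subgroup.commutator_mem_commutator ha hb
    rw [hbot, Subgroup.mem_bot, commutatorElement_eq_one_iff_mul_comm] at h1
    exact h1
  have hcard : Nat.card D ≠ 1 := by
    intro h
    exact hD1 (Subgroup.card_eq_one.1 h)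
  obtain ⟨p, hp, hpD⟩ := Nat.exists_prime_and_dvd hcard
  obtain ⟨A, -, h3⟩ := exists_elementary hDn hcomm hp hpD
  exact ⟨p, A, hp, h3⟩

/-- primes dividing the index -/
theorem dvd_index {p : ℕ} [Fact p.Prime] (H A : Subgroup G) [A.Normal]
    (hexp : ∀ a ∈ A, a ^ p = 1) (hAH : ¬ A ≤ H) : p ∣ H.index := by
  have hpA : IsPGroup p A := fun a => ⟨1, by
    rw [pow_one]
    exact Subtype.ext (hexp a a.2)⟩
  obtain ⟨n, hn⟩ := IsPGroup.iff_card.1 hpA
  have h2 : H.relIndex A ∣ p ^ n := by
    rw [← hn]
    exact (H.subgroupOf A).index_dvd_card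
  obtain ⟨d, -, hd⟩ := (Nat.dvd_prime_pow Fact.out).1 h2
  have hd0 : d ≠ 0 := by
    rintro rfl
    rw [pow_zero, Subgroup.relIndex_eq_one] at hd
    exact hAH hd
  have hdiv : H.relIndex A ∣ H.index := by
    rw [← relIndex_sup_eq H A, ← Subgroup.relIndex_mul_index (le_sup_right : H ≤ A ⊔ H)]
    exact dvd_mul_right _ _
  refine dvd_trans ?_ hdiv
  rw [hd]
  exact dvd_pow_self p hd0

theorem perm_four : Group.IsSolvable (Equiv.Perm (Fin 4)) := by
  have h4 : Nat.card (Fin 4) = 4 := Nat.card_fin 4
  have hn := alternatingGroup.normal_kleinFour h4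
  have hA : Group.IsSolvable (alternatingGroup (Fin 4)) := by
    have h1 : Group.IsSolvable (alternatingGroup.kleinFour (Fin 4)) := by
      have h2 := alternatingGroup.exponent_kleinFour_of_card_eq_four h4
      exact Group.isSolvable_of_comm fun a b => mul_comm_of_exponent_two h2 a b
    have h2 : Group.IsSolvable (alternatingGroup (Fin 4) ⧸ alternatingGroup.kleinFour (Fin 4)) := by
      refine Group.isSolvable_of_comm fun a b => ?_
      induction a using QuotientGroup.induction_on with | H a => ?_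
      induction b using QuotientGroup.induction_on with | H b => ?_
      rw [← QuotientGroup.mk_mul, ← QuotientGroup.mk_mul, QuotientGroup.eq,
        alternatingGroup.kleinFour_eq_commutator h4]
      have e : (a * b)⁻¹ * (b * a) = ⁅b⁻¹, a⁻¹⁆ := by
        rw [commutatorElement_def]
        group
      rw [e]
      exact Subgroup.commutator_mem_commutator (Subgroup.mem_top _) (Subgroup.mem_top _)
    exact (Group.isSolvable_iff_subgroup_quotient _).2 ⟨h1, h2⟩
  exact Group.isSolvable_of_ker_le_range (alternatingGroup (Fin 4)).subtype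
    (Equiv.Perm.sign (α := Fin 4)) (by
      intro x hx
      exact ⟨⟨x, Equiv.Perm.mem_alternatingGroup.2 hx⟩, rfl⟩)

theorem solvable_le_four (H : Subgroup G) (hcore : H.normalCore = ⊥) (h : H.index ≤ 4) :
    Group.IsSolvable G := by
  classical
  have hf : Fintype (G ⧸ H) := Fintype.ofFinite _
  have h1 : Fintype.card (G ⧸ H) ≤ Fintype.card (Fin 4) := by
    rw [Fintype.card_fin, ← Nat.card_eq_fintype_card]
    exact h
  obtain ⟨e⟩ := Function.Embedding.nonempty_of_card_le h1
  have hs := perm_four
  let f : G →* Equiv.Perm (Fin 4) :=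
    (Equiv.Perm.viaEmbeddingHom e).comp (MulAction.toPermHom G (G ⧸ H))
  have hinj : Function.Injective f := by
    refine (Equiv.Perm.viaEmbeddingHom_injective e).comp ?_
    rw [← MonoidHom.ker_eq_bot_iff, ← Subgroup.normalCore_eq_ker, hcore]
  exact Group.isSolvable_of_isSolvable_injective hinj

end groups

section fields
variable {k : Type} [Field k] [NumberField k] {K : Type} [Field K] [NumberField K] [Algebra k K]

omit [NumberField k] in
theorem fixer_eq (F : IntermediateField k K) [NumberField F]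
    (M : Type) [Field M] [NumberField M] [Algebra K M] :
    fixer F K M = (IsScalarTower.toAlgHom F K M).fieldRange.fixingSubgroup := by
  ext σ
  rw [mem_fixer, IntermediateField.mem_fixingSubgroup_iff]
  constructor
  · rintro h _ ⟨x, rfl⟩
    exact h x
  · intro h x
    exact h _ ⟨x, rfl⟩

/-- **Elementary abelian normal subgroups.** -/
theorem no_elementary (hK : ¬ FacC (Module.finrank k K) (⟨K⟩ : Ext k)) (F : IntermediateField k K)
    (M : Type) [Field M] [NumberField M] [Algebra K M] [IsGalois F M] {p : ℕ} (hp : p.Prime)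
    {A : Subgroup Gal(M/F)} (hA : A.Normal) (hcomm : ∀ a ∈ A, ∀ b ∈ A, a * b = b * a)
    (hexp : ∀ a ∈ A, a ^ p = 1) :
    A ≤ (IsScalarTower.toAlgHom F K M).fieldRange.fixingSubgroup := by
  by_contra hAH
  have : Fact p.Prime := ⟨hp⟩
  have hg : IsGalois K M := IsGalois.tower_top_of_isGalois F K M
  rw [← fixer_eq] at hAH
  have hpd : p ∣ (fixer F K M).index := dvd_index _ A hexp hAH
  obtain ⟨J, hJ, S, lam, hS, hlam, hsum, hdec⟩ := decompose_gen (p := p) (fixer F K M) A hcomm hexp
    hAH
  have hidx : (fixer F K M).index = Module.finrank F K := by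
    rw [fixer_eq]
    exact index_fix F M
  rw [hidx] at hS hsum hpd
  have h1 : FacC (Module.finrank F K) (⟨K⟩ : Ext F) :=
    facC_of_dec (k := F) (K := K) (M := M) S lam hS hp hpd hlam hsum hdec
  have h2 := facC_restrict (k := k) (m := Module.finrank F K) (n := Module.finrank k K) ⟨F⟩ ⟨K⟩ h1
    (Module.finrank_mul_finrank k F K).le
  rw [ext_restrict] at h2
  exact hK h2

/-- **Solvable normal subgroups.** -/
theorem no_solvable (hK : ¬ FacC (Module.finrank k K) (⟨K⟩ : Ext k)) (F : IntermediateField k K)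
    (M : Type) [Field M] [NumberField M] [Algebra K M] [IsNormalClosure F K M] [IsGalois F M]
    {T : Subgroup Gal(M/F)} (hT : T.Normal) (hs : Group.IsSolvable T) : T = ⊥ := by
  by_contra hT1
  obtain ⟨p, A, hp, hAn, hcomm, hexp, hA1⟩ := exists_elementary_normal hT hs hT1
  exact hA1 (core_trivial F M hAn (no_elementary hK F M hp hAn hcomm hexp))

/-- **The degrees.** -/
theorem five_le (hK : ¬ FacC (Module.finrank k K) (⟨K⟩ : Ext k)) (F : IntermediateField k K)
    (M : Type) [Field M] [NumberField M] [Algebra K M] [IsNormalClosure F K M] [IsGalois F M]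
    (hF : Module.finrank F K ≠ 1) :
    5 ≤ Module.finrank F K ∧ ¬ Group.IsSolvable Gal(M/F) := by
  set H := (IsScalarTower.toAlgHom F K M).fieldRange.fixingSubgroup with hH
  have hidx : H.index = Module.finrank F K := index_fix F M
  have hns : ¬ Group.IsSolvable Gal(M/F) := by
    intro hs
    have htop : (⊤ : Subgroup Gal(M/F)) = ⊥ :=
      no_solvable hK F M (T := ⊤) inferInstance inferInstance
    apply hF
    rw [← hidx, Subgroup.index_eq_one, eq_top_iff, htop]
    exact bot_le
  refine ⟨?_, hns⟩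
  by_contra hlt
  apply hns
  refine solvable_le_four H ?_ (by omega)
  exact core_trivial F M (T := H.normalCore) inferInstance H.normalCore_le

/-- **Automorphisms.** -/
theorem aut_trivial (hK : ¬ FacC (Module.finrank k K) (⟨K⟩ : Ext k)) (σ : Gal(K/k)) : σ = 1 := by
  by_contra hσ
  have hcard : Nat.card Gal(K/k) ≠ 1 := by
    intro h
    have := (Nat.card_eq_one_iff_unique.1 h).1
    exact hσ (Subsingleton.elim _ _)
  obtain ⟨p, hp, hpd⟩ := Nat.exists_prime_and_dvd hcard
  have : Fact p.Prime := ⟨hp⟩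
  obtain ⟨x, hx⟩ := exists_prime_orderOf_dvd_card' (G := Gal(K/k)) p hpd
  set Γ := Subgroup.zpowers x with hΓ
  have hgal : IsGalois (fixedField Γ) K := IsGalois.of_fixed_field K Γ
  let e : Γ ≃* Gal(K/fixedField Γ) := subgroupEquivAlgEquiv Γ
  have hcard : Nat.card Gal(K/fixedField Γ) = p := by
    rw [← Nat.card_congr e.toEquiv, hΓ, Nat.card_zpowers, hx]
  have hpow : ∀ a : Gal(K/fixedField Γ), a ^ p = 1 := fun a => by
    rw [← hcard]
    exact pow_card_eq_one'
  have hcomm : ∀ a b : Gal(K/fixedField Γ), a * b = b * a := by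
    intro a b
    have h0 : IsMulCommutative Γ := inferInstance
    apply e.symm.injective
    rw [map_mul, map_mul]
    exact h0.is_comm.comm _ _
  have h1 := no_elementary hK (fixedField Γ) K hp (A := ⊤) inferInstance
    (fun a _ b _ => hcomm a b) (fun a _ => hpow a)
  have h2 : (IsScalarTower.toAlgHom (fixedField Γ) K K).fieldRange.fixingSubgroup = ⊥ := by
    have h2 : (IsScalarTower.toAlgHom (fixedField Γ) K K).fieldRange = ⊤ := by
      rw [eq_top_iff]
      intro x _
      exact ⟨x, rfl⟩
    rw [h2, fixingSubgroup_top]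
  rw [h2] at h1
  have h3 : Subsingleton Gal(K/fixedField Γ) := by
    refine ⟨fun a b => ?_⟩
    rw [(Subgroup.mem_bot.1 (h1 (Subgroup.mem_top a))), (Subgroup.mem_bot.1 (h1 (Subgroup.mem_top b)))]
  have h4 : Nat.card Gal(K/fixedField Γ) = 1 := Nat.card_unique
  rw [hcard] at h4
  exact hp.one_lt.ne' h4

end fields

end Pool.Agent.H453.K2
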