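import Pool.Agent.H453.EN.Rel
import Pool.Agent.H453.K2.Loc
import Pool.Graph.R_pool_sql_team_seeded_3997aac3.Q92.AR.Data

/-! Incomplete `L`-series of twists by characters. -/

set_option autoImplicit false

namespace Pool.Agent.H453.K2

open NumberField IsDedekindDomain Complex Polynomial Filter
open Pool.Agent.H921R2.TatePole (nm two_le_nm nm_summable)
open Pool.Agent.H341R2.EC
open Pool.Agent.R433.MD
open Pool.Agent.H453.EN

section
variable {K : Type} [Field K] [NumberField K]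

/-- the local factor (inverse) of the twist -/
noncomputable def tlf (V : HeightOneSpectrum (𝓞 K) → WeierstrassCurve (𝓞 K))
    (c : HeightOneSpectrum (𝓞 K) → ℂ) (s : ℂ) (v : HeightOneSpectrum (𝓞 K)) : ℂ :=
  1 - c v * (trc V v : ℂ) * ((nm v : ℕ) : ℂ) ^ (-s) +
    c v ^ 2 * (dlt V v * ((nm v : ℕ) : ℂ) ^ (1 - 2 * s))

theorem tlf_sub_one (V : HeightOneSpectrum (𝓞 K) → WeierstrassCurve (𝓞 K))
    {c : HeightOneSpectrum (𝓞 K) → ℂ} (hc : ∀ v, ‖c v‖ ≤ 1) (s : ℂ)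
    (v : HeightOneSpectrum (𝓞 K)) {B : ℝ} (hB : |(trc V v : ℝ)| ≤ B) :
    ‖tlf V c s v - 1‖ ≤ B * (nm v : ℝ) ^ (-s.re) + (nm v : ℝ) ^ (1 - 2 * s.re) := by
  have e : tlf V c s v - 1 = -(c v * ((trc V v : ℂ) * ((nm v : ℕ) : ℂ) ^ (-s))) +
      c v ^ 2 * (dlt V v * ((nm v : ℕ) : ℂ) ^ (1 - 2 * s)) := by
    unfold tlf
    ring
  rw [e]
  refine (norm_add_le _ _).trans ?_
  rw [norm_neg, norm_mul, norm_mul (c v ^ 2), norm_mul, norm_mul, norm_nm_cpow, norm_nm_cpow,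
    norm_pow]
  have e1 : (-s).re = -s.re := by simp
  have e2 : (1 - 2 * s).re = 1 - 2 * s.re := by simp
  have e3 : ‖(trc V v : ℂ)‖ = |(trc V v : ℝ)| := by
    rw [← Complex.ofReal_intCast, Complex.norm_real, Real.norm_eq_abs]
  rw [e1, e2, e3]
  have h1 : (0 : ℝ) ≤ (nm v : ℝ) ^ (-s.re) := by positivity
  have h2 : (0 : ℝ) ≤ (nm v : ℝ) ^ (1 - 2 * s.re) := by positivity
  have h3 := dlt_le V v
  have h4 := hc v
  have h5 : ‖c v‖ ^ 2 ≤ 1 := pow_le_one₀ (norm_nonneg _) h4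
  have h6 : ‖c v‖ * (|(trc V v : ℝ)| * (nm v : ℝ) ^ (-s.re)) ≤ B * (nm v : ℝ) ^ (-s.re) := by
    calc ‖c v‖ * (|(trc V v : ℝ)| * (nm v : ℝ) ^ (-s.re)) ≤
        1 * (|(trc V v : ℝ)| * (nm v : ℝ) ^ (-s.re)) :=
          mul_le_mul_of_nonneg_right h4 (by positivity)
      _ = |(trc V v : ℝ)| * (nm v : ℝ) ^ (-s.re) := one_mul _
      _ ≤ _ := mul_le_mul_of_nonneg_right hB h1
  have h7 : ‖c v‖ ^ 2 * (‖dlt V v‖ * (nm v : ℝ) ^ (1 - 2 * s.re)) ≤
      (nm v : ℝ) ^ (1 - 2 * s.re) := by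
    calc ‖c v‖ ^ 2 * (‖dlt V v‖ * (nm v : ℝ) ^ (1 - 2 * s.re)) ≤
        1 * (1 * (nm v : ℝ) ^ (1 - 2 * s.re)) := by
          refine mul_le_mul h5 (mul_le_mul_of_nonneg_right h3 h2) (by positivity) zero_le_one
      _ = _ := by ring
  exact add_le_add h6 h7

theorem tlf_ne_zero (V : HeightOneSpectrum (𝓞 K) → WeierstrassCurve (𝓞 K))
    {c : HeightOneSpectrum (𝓞 K) → ℂ} (hc : ∀ v, ‖c v‖ ≤ 1) {s : ℂ}
    (hs : 3 / 2 < s.re) (v : HeightOneSpectrum (𝓞 K)) : tlf V c s v ≠ 0 := by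
  intro h
  have h1 := trc_le V v
  have h1' : |(trc V v : ℝ)| ≤ (nm v : ℝ) := by exact_mod_cast h1
  have h2 := tlf_sub_one V hc s v h1'
  rw [h] at h2
  have hq : (2 : ℝ) ≤ (nm v : ℝ) := by exact_mod_cast two_le_nm v
  have h3 : (nm v : ℝ) * (nm v : ℝ) ^ (-s.re) = (nm v : ℝ) ^ (1 - s.re) := by
    rw [sub_eq_add_neg, Real.rpow_add (by linarith), Real.rpow_one]
  rw [h3] at h2
  have h4 : (nm v : ℝ) ^ (1 - s.re) ≤ (2 : ℝ) ^ (-(1 / 2) : ℝ) := by
    calc (nm v : ℝ) ^ (1 - s.re) ≤ (2 : ℝ) ^ (1 - s.re) :=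
          Real.rpow_le_rpow_of_nonpos (by norm_num) hq (by linarith)
      _ ≤ (2 : ℝ) ^ (-(1 / 2) : ℝ) :=
          Real.rpow_le_rpow_of_exponent_le (by norm_num) (by linarith)
  have h5 : (nm v : ℝ) ^ (1 - 2 * s.re) ≤ 1 / 4 := by
    calc (nm v : ℝ) ^ (1 - 2 * s.re) ≤ (2 : ℝ) ^ (1 - 2 * s.re) :=
          Real.rpow_le_rpow_of_nonpos (by norm_num) hq (by linarith)
      _ ≤ (2 : ℝ) ^ (-(2 : ℝ)) :=
          Real.rpow_le_rpow_of_exponent_le (by norm_num) (by linarith)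
      _ = 1 / 4 := by
          rw [Real.rpow_neg (by norm_num)]
          norm_num
  have h6 : (2 : ℝ) ^ (-(1 / 2) : ℝ) < 3 / 4 := by
    have h7 : ((2 : ℝ) ^ (-(1 / 2) : ℝ)) ^ 2 = 1 / 2 := by
      rw [← Real.rpow_natCast, ← Real.rpow_mul (by norm_num)]
      norm_num
    have h8 : (0 : ℝ) ≤ (2 : ℝ) ^ (-(1 / 2) : ℝ) := by positivity
    nlinarith
  simp at h2
  linarith

open scoped Classical in
/-- the Euler factors at the primes not dividing `N` -/
noncomputable def tef (N : ℕ) (V : HeightOneSpectrum (𝓞 K) → WeierstrassCurve (𝓞 K))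
    (c : HeightOneSpectrum (𝓞 K) → ℂ) (s : ℂ) (v : HeightOneSpectrum (𝓞 K)) : ℂ :=
  if Dv N v then 1 else (tlf V c s v)⁻¹

/-- the incomplete `L`-series of the twist -/
noncomputable def LC (N : ℕ) (V : HeightOneSpectrum (𝓞 K) → WeierstrassCurve (𝓞 K))
    (c : HeightOneSpectrum (𝓞 K) → ℂ) (s : ℂ) : ℂ :=
  ∏' v, tef N V c s v

open scoped Classical in
theorem summable_tef {E : WeierstrassCurve K} (hE : E.IsElliptic)
    {V : HeightOneSpectrum (𝓞 K) → WeierstrassCurve (𝓞 K)} (hV : ∀ v, IsMinAt E v (V v))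
    {c : HeightOneSpectrum (𝓞 K) → ℂ} (hc : ∀ v, ‖c v‖ ≤ 1) (N : ℕ)
    {s : ℂ} (hs : 3 / 2 < s.re) :
    Summable fun v => (if Dv N v then 1 else tlf V c s v) - 1 := by
  have h1 : Summable fun v : HeightOneSpectrum (𝓞 K) => 3 * (nm v : ℝ) ^ (-(s.re - 1 / 2)) :=
    (nm_summable (by linarith)).mul_left 3
  refine Summable.of_norm_bounded_eventually h1 ?_
  filter_upwards [hasse E hE V hV] with v hv
  have hq : (2 : ℝ) ≤ (nm v : ℝ) := by exact_mod_cast two_le_nm v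
  split_ifs with hd
  · rw [sub_self, norm_zero]
    positivity
  refine (tlf_sub_one V hc s v hv).trans ?_
  have e1 : Real.sqrt (nm v) * (nm v : ℝ) ^ (-s.re) = (nm v : ℝ) ^ (-(s.re - 1 / 2)) := by
    rw [Real.sqrt_eq_rpow, ← Real.rpow_add (by linarith)]
    congr 1
    ring
  have e2 : (nm v : ℝ) ^ (1 - 2 * s.re) ≤ (nm v : ℝ) ^ (-(s.re - 1 / 2)) :=
    Real.rpow_le_rpow_of_exponent_le (by linarith) (by linarith)
  rw [mul_assoc, e1]
  linarith

/-- the Euler product converges and is not zero -/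
theorem hasProd_LC' {E : WeierstrassCurve K} (hE : E.IsElliptic)
    {V : HeightOneSpectrum (𝓞 K) → WeierstrassCurve (𝓞 K)} (hV : ∀ v, IsMinAt E v (V v))
    {c : HeightOneSpectrum (𝓞 K) → ℂ} (hc : ∀ v, ‖c v‖ ≤ 1) (N : ℕ)
    {s : ℂ} (hs : 3 / 2 < s.re) :
    HasProd (tef N V c s) (LC N V c s) ∧ LC N V c s ≠ 0 := by
  classical
  have h1 := Complex.summable_log_one_add_of_summable (summable_tef hE hV hc N hs)
  have h2 := h1.neg.hasSum.cexp
  have h3 : (cexp ∘ fun v => -Complex.log (1 + ((if Dv N v then 1 else tlf V c s v) - 1))) =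
      tef N V c s := by
    funext v
    unfold tef
    rw [Function.comp_apply, add_sub_cancel, Complex.exp_neg]
    split_ifs with h
    · rw [Complex.log_one, Complex.exp_zero, inv_one]
    · rw [Complex.exp_log (tlf_ne_zero V hc hs v)]
  rw [h3] at h2
  unfold LC
  rw [h2.tprod_eq]
  exact ⟨h2, Complex.exp_ne_zero _⟩

theorem hasProd_LC {E : WeierstrassCurve K} (hE : E.IsElliptic)
    {V : HeightOneSpectrum (𝓞 K) → WeierstrassCurve (𝓞 K)} (hV : ∀ v, IsMinAt E v (V v))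
    {c : HeightOneSpectrum (𝓞 K) → ℂ} (hc : ∀ v, ‖c v‖ ≤ 1) (N : ℕ)
    {s : ℂ} (hs : 3 / 2 < s.re) : HasProd (tef N V c s) (LC N V c s) :=
  (hasProd_LC' hE hV hc N hs).1

theorem LC_ne_zero {E : WeierstrassCurve K} (hE : E.IsElliptic)
    {V : HeightOneSpectrum (𝓞 K) → WeierstrassCurve (𝓞 K)} (hV : ∀ v, IsMinAt E v (V v))
    {c : HeightOneSpectrum (𝓞 K) → ℂ} (hc : ∀ v, ‖c v‖ ≤ 1) (N : ℕ)
    {s : ℂ} (hs : 3 / 2 < s.re) : LC N V c s ≠ 0 :=
  (hasProd_LC' hE hV hc N hs).2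

/-- the trivial character -/
theorem LC_one (N : ℕ) (V : HeightOneSpectrum (𝓞 K) → WeierstrassCurve (𝓞 K)) (s : ℂ) :
    LC N V (fun _ => 1) s = LN N V s := by
  unfold LC LN
  refine tprod_congr fun v => ?_
  unfold tef ef tlf lf
  rw [one_mul, one_pow, one_mul]

/-- the incomplete `L`-series does not depend on the choice of the minimal models -/
theorem LC_minimal {E : WeierstrassCurve K} (hE : E.IsElliptic)
    {V V' : HeightOneSpectrum (𝓞 K) → WeierstrassCurve (𝓞 K)} (hV : ∀ v, IsMinAt E v (V v))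
    (hV' : ∀ v, IsMinAt E v (V' v)) (N : ℕ) (c : HeightOneSpectrum (𝓞 K) → ℂ) (s : ℂ) :
    LC N V c s = LC N V' c s := by
  unfold LC
  refine tprod_congr fun v => ?_
  obtain ⟨h1, h2⟩ := aff_minimal v hE (hV v) (hV' v)
  have h3 : dlt V v = dlt V' v := by
    unfold dlt
    by_cases h : (V v).Δ ∈ v.asIdeal
    · rw [if_pos h, if_pos (h2.1 h)]
    · rw [if_neg h, if_neg fun h' => h (h2.2 h')]
  unfold tef tlf trc
  rw [h1, h3]

open scoped Classical in
/-- more primes removed -/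
theorem LC_dvd {E : WeierstrassCurve K} (hE : E.IsElliptic)
    {V : HeightOneSpectrum (𝓞 K) → WeierstrassCurve (𝓞 K)} (hV : ∀ v, IsMinAt E v (V v))
    {c : HeightOneSpectrum (𝓞 K) → ℂ} (hc : ∀ v, ‖c v‖ ≤ 1)
    {N N' : ℕ} (hN : N ≠ 0) (hd : N' ∣ N) {s : ℂ} (hs : 3 / 2 < s.re) :
    LC N V c s = LC N' V c s *
      ∏ v ∈ (finite_dv (K := K) hN).toFinset.filter (fun v => ¬ Dv N' v), tlf V c s v := by
  have h1 := hasProd_LC hE hV hc N' hs
  have h2 : HasProd (fun v => if Dv N v ∧ ¬ Dv N' v then tlf V c s v else 1)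
      (∏ v ∈ (finite_dv (K := K) hN).toFinset.filter (fun v => ¬ Dv N' v), tlf V c s v) := by
    have h3 : HasProd (fun v => if Dv N v ∧ ¬ Dv N' v then tlf V c s v else 1)
        (∏ v ∈ (finite_dv (K := K) hN).toFinset.filter (fun v => ¬ Dv N' v),
          if Dv N v ∧ ¬ Dv N' v then tlf V c s v else 1) :=
      hasProd_prod_of_ne_finset_one fun v hv => by
        rw [Finset.mem_filter, Set.Finite.mem_toFinset] at hv
        exact if_neg hv
    have h4 : (∏ v ∈ (finite_dv (K := K) hN).toFinset.filter (fun v => ¬ Dv N' v),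
        if Dv N v ∧ ¬ Dv N' v then tlf V c s v else 1) =
        ∏ v ∈ (finite_dv (K := K) hN).toFinset.filter (fun v => ¬ Dv N' v), tlf V c s v :=
      Finset.prod_congr rfl fun v hv => by
        rw [Finset.mem_filter, Set.Finite.mem_toFinset] at hv
        exact if_pos hv
    rwa [h4] at h3
  have h3 := h1.mul h2
  refine (hasProd_LC hE hV hc N hs).unique (h3.congr_fun fun v => ?_)
  unfold tef
  by_cases ha : Dv N v
  · by_cases hb : Dv N' v
    · rw [if_pos ha, if_pos hb, if_neg (fun h => h.2 hb), mul_one]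
    · rw [if_pos ha, if_neg hb, if_pos ⟨ha, hb⟩,
        inv_mul_cancel₀ (tlf_ne_zero V hc hs v)]
  · have hb : ¬ Dv N' v := fun h => ha (dv_of_dvd hd h)
    rw [if_neg ha, if_neg hb, if_neg (fun h => ha h.1), mul_one]

/-- the local factors are entire -/
theorem analytic_tlf (V : HeightOneSpectrum (𝓞 K) → WeierstrassCurve (𝓞 K))
    (c : HeightOneSpectrum (𝓞 K) → ℂ) (v : HeightOneSpectrum (𝓞 K)) (s : ℂ) :
    AnalyticAt ℂ (fun s => tlf V c s v) s := by
  have h0 : ((nm v : ℕ) : ℂ) ≠ 0 := by exact_mod_cast (nm_pos v).ne'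
  have hd : Differentiable ℂ fun s => tlf V c s v := by
    unfold tlf
    have h1 : Differentiable ℂ fun s : ℂ => ((nm v : ℕ) : ℂ) ^ (-s) :=
      (differentiable_id.neg).const_cpow (Or.inl h0)
    have h2 : Differentiable ℂ fun s : ℂ => ((nm v : ℕ) : ℂ) ^ (1 - 2 * s) :=
      ((differentiable_const _).sub ((differentiable_const _).mul differentiable_id)).const_cpow
        (Or.inl h0)
    exact ((differentiable_const _).sub ((differentiable_const _).mul h1)).add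
      ((differentiable_const _).mul ((differentiable_const _).mul h2))
  exact hd.analyticAt s

end

end Pool.Agent.H453.K2
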